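import Pool.Agent.Q220.RCC.Compact

/-!
# The algebra of an assignment and its minterms
-/

namespace Pool.Agent.Q220.RCC

open Form

/-- the assignment `v` makes all axioms true -/
def IsVal (S : Set Opt) (v : Form → Bool) : Prop := ∀ ψ, Ax S ψ → eval v ψ = true

section

variable {S : Set Opt} {v : Form → Bool}

/-- truth -/
def Tr (v : Form → Bool) (φ : Form) : Prop := eval v φ = true

lemma IsVal.refl (h : IsVal S v) (a : Term) : Tr v (le a a) := h _ (Ax.le_refl a)

lemma IsVal.trans (h : IsVal S v) {a b c : Term} (h₁ : Tr v (le a b)) (h₂ : Tr v (le b c)) :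
    Tr v (le a c) := by
  have := h _ (Ax.le_trans a b c)
  rw [eval_imp, eval_and] at this
  exact this ⟨h₁, h₂⟩

/-- equality of terms -/
def termSetoid (h : IsVal S v) : Setoid Term where
  r a b := Tr v (le a b) ∧ Tr v (le b a)
  iseqv :=
    { refl := fun a => ⟨h.refl a, h.refl a⟩
      symm := fun h' => ⟨h'.2, h'.1⟩
      trans := fun h₁ h₂ => ⟨h.trans h₁.1 h₂.1, h.trans h₂.2 h₁.2⟩ }

/-- the algebra of terms -/
def Lin (h : IsVal S v) : Type := Quotient (termSetoid h)

variable (h : IsVal S v)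

/-- the class of a term -/
def cl (a : Term) : Lin h := Quotient.mk (termSetoid h) a

include h

lemma le_mul' {a b c : Term} (h₁ : Tr v (le c a)) (h₂ : Tr v (le c b)) : Tr v (le c (.mul a b)) := by
  have := h _ (Ax.le_mul a b c)
  rw [eval_imp, eval_and] at this
  exact this ⟨h₁, h₂⟩

lemma add_le' {a b c : Term} (h₁ : Tr v (le a c)) (h₂ : Tr v (le b c)) : Tr v (le (.add a b) c) := by
  have := h _ (Ax.add_le a b c)
  rw [eval_imp, eval_and] at this
  exact this ⟨h₁, h₂⟩

lemma mul_left' (a b : Term) : Tr v (le (.mul a b) a) := h _ (Ax.mul_left a b)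
lemma mul_right' (a b : Term) : Tr v (le (.mul a b) b) := h _ (Ax.mul_right a b)
lemma add_left' (a b : Term) : Tr v (le a (.add a b)) := h _ (Ax.add_left a b)
lemma add_right' (a b : Term) : Tr v (le b (.add a b)) := h _ (Ax.add_right a b)

lemma compl_mono {a b : Term} (h₁ : Tr v (le a b)) : Tr v (le (.compl b) (.compl a)) := by
  -- b* ≤ b* · (a + a*) ≤ b* · a + b* · a* ≤ b* · b + a* ≤ a*
  have e1 : Tr v (le (.compl b) (.mul (.compl b) (.add a (.compl a)))) :=
    le_mul' h (h.refl _) (h.trans (h _ (Ax.le_one _)) (h _ (Ax.add_compl a)))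
  have e2 : Tr v (le (.mul (.compl b) (.add a (.compl a)))
      (.add (.mul (.compl b) a) (.mul (.compl b) (.compl a)))) := h _ (Ax.distrib _ _ _)
  refine h.trans e1 (h.trans e2 (add_le' h ?_ (mul_right' h _ _)))
  have e3 : Tr v (le (.mul (.compl b) a) (.mul b (.compl b))) :=
    le_mul' h (h.trans (mul_right' h _ _) h₁) (mul_left' h _ _)
  exact h.trans e3 (h.trans (h _ (Ax.mul_compl b)) (h _ (Ax.zero_le _)))

instance : Lattice (Lin h) where
  le x y := Quotient.liftOn₂ x y (fun a b => Tr v (le a b)) (by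
    intro a₁ b₁ a₂ b₂ ha hb
    exact propext ⟨fun h' => h.trans ha.2 (h.trans h' hb.1), fun h' => h.trans ha.1 (h.trans h' hb.2)⟩)
  le_refl x := by
    induction x using Quotient.ind
    exact h.refl _
  le_trans x y z := by
    induction x using Quotient.ind
    induction y using Quotient.ind
    induction z using Quotient.ind
    exact h.trans
  le_antisymm x y := by
    induction x using Quotient.ind
    induction y using Quotient.ind
    exact fun h₁ h₂ => Quotient.sound (s := termSetoid h) ⟨h₁, h₂⟩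
  sup x y := Quotient.liftOn₂ x y (fun a b => cl h (.add a b)) (by
    intro a₁ b₁ a₂ b₂ ha hb
    refine Quotient.sound (s := termSetoid h) ⟨add_le' h ?_ ?_, add_le' h ?_ ?_⟩
    · exact h.trans ha.1 (add_left' h _ _)
    · exact h.trans hb.1 (add_right' h _ _)
    · exact h.trans ha.2 (add_left' h _ _)
    · exact h.trans hb.2 (add_right' h _ _))
  le_sup_left x y := by
    induction x using Quotient.ind
    induction y using Quotient.ind
    exact add_left' h _ _
  le_sup_right x y := by
    induction x using Quotient.ind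
    induction y using Quotient.ind
    exact add_right' h _ _
  sup_le x y z := by
    induction x using Quotient.ind
    induction y using Quotient.ind
    induction z using Quotient.ind
    exact fun h₁ h₂ => add_le' h h₁ h₂
  inf x y := Quotient.liftOn₂ x y (fun a b => cl h (.mul a b)) (by
    intro a₁ b₁ a₂ b₂ ha hb
    refine Quotient.sound (s := termSetoid h) ⟨le_mul' h ?_ ?_, le_mul' h ?_ ?_⟩
    · exact h.trans (mul_left' h _ _) ha.1
    · exact h.trans (mul_right' h _ _) hb.1
    · exact h.trans (mul_left' h _ _) ha.2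
    · exact h.trans (mul_right' h _ _) hb.2)
  inf_le_left x y := by
    induction x using Quotient.ind
    induction y using Quotient.ind
    exact mul_left' h _ _
  inf_le_right x y := by
    induction x using Quotient.ind
    induction y using Quotient.ind
    exact mul_right' h _ _
  le_inf x y z := by
    induction x using Quotient.ind
    induction y using Quotient.ind
    induction z using Quotient.ind
    exact fun h₁ h₂ => le_mul' h h₁ h₂

instance : DistribLattice (Lin h) := DistribLattice.ofInfSupLe (by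
  intro x y z
  induction x using Quotient.ind
  induction y using Quotient.ind
  induction z using Quotient.ind
  exact h _ (Ax.distrib _ _ _))

instance : BooleanAlgebra (Lin h) where
  compl x := Quotient.liftOn x (fun a => cl h (.compl a)) (by
    intro a b hab
    exact Quotient.sound (s := termSetoid h) ⟨compl_mono h hab.2, compl_mono h hab.1⟩)
  top := cl h .one
  bot := cl h .zero
  le_top x := by
    induction x using Quotient.ind
    exact h _ (Ax.le_one _)
  bot_le x := by
    induction x using Quotient.ind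
    exact h _ (Ax.zero_le _)
  inf_compl_le_bot x := by
    induction x using Quotient.ind
    exact h _ (Ax.mul_compl _)
  top_le_sup_compl x := by
    induction x using Quotient.ind
    exact h _ (Ax.add_compl _)

lemma cl_le {a b : Term} : cl h a ≤ cl h b ↔ Tr v (le a b) := Iff.rfl

lemma cl_add (a b : Term) : cl h (.add a b) = cl h a ⊔ cl h b := rfl
lemma cl_mul (a b : Term) : cl h (.mul a b) = cl h a ⊓ cl h b := rfl
lemma cl_compl (a : Term) : cl h (.compl a) = (cl h a)ᶜ := rfl
lemma cl_one : cl h .one = ⊤ := rfl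
lemma cl_zero : cl h .zero = ⊥ := rfl

lemma cl_eq {a b : Term} : cl h a = cl h b ↔ Tr v (eq a b) := by
  unfold Tr
  rw [eval_eq]
  exact ⟨fun h' => ⟨(cl_le h).mp h'.le, (cl_le h).mp h'.ge⟩,
    fun h' => le_antisymm ((cl_le h).mpr h'.1) ((cl_le h).mpr h'.2)⟩

/-- contact -/
def Ct (x y : Lin h) : Prop := ∃ a b, cl h a = x ∧ cl h b = y ∧ Tr v (con a b)

/-- boundedness -/
def Bd (x : Lin h) : Prop := ∃ a, cl h a = x ∧ Tr v (bdd a)

lemma con_symm' {a b : Term} (h' : Tr v (con a b)) : Tr v (con b a) :=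
  eval_imp.mp (h _ (Ax.con_symm a b)) h'

lemma con_congr {a b c : Term} (h₁ : cl h a = cl h b) (h' : Tr v (con c a)) : Tr v (con c b) := by
  have := h _ (Ax.congr a b c)
  rw [eval_imp, eval_and] at this
  exact this ⟨(cl_eq h).mp h₁, h'⟩

lemma Ct_cl {a b : Term} : Ct h (cl h a) (cl h b) ↔ Tr v (con a b) := by
  constructor
  · rintro ⟨a', b', ha, hb, h'⟩
    exact con_symm' h (con_congr h ha (con_symm' h (con_congr h hb h')))
  · exact fun h' => ⟨a, b, rfl, rfl, h'⟩

lemma exists_cl (x : Lin h) : ∃ a, cl h a = x := Quotient.exists_rep x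

lemma Ct_symm {x y : Lin h} (h' : Ct h x y) : Ct h y x := by
  obtain ⟨a, b, ha, hb, h'⟩ := h'
  exact ⟨b, a, hb, ha, con_symm' h h'⟩

lemma Ct_sup {x y z : Lin h} : Ct h x (y ⊔ z) ↔ Ct h x y ∨ Ct h x z := by
  obtain ⟨a, rfl⟩ := exists_cl h x
  obtain ⟨b, rfl⟩ := exists_cl h y
  obtain ⟨c, rfl⟩ := exists_cl h z
  rw [← cl_add, Ct_cl, Ct_cl, Ct_cl]
  have := h _ (Ax.con_add a b c)
  rw [eval_iff, eval_or] at this
  exact this

lemma Ct_mono {x y z : Lin h} (hyz : y ≤ z) (h' : Ct h x y) : Ct h x z := by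
  rw [← sup_eq_right.mpr hyz, Ct_sup]
  exact Or.inl h'

lemma Ct_mono₂ {x x' y y' : Lin h} (hx : x ≤ x') (hy : y ≤ y') (h' : Ct h x y) : Ct h x' y' :=
  Ct_mono h hy (Ct_symm h (Ct_mono h hx (Ct_symm h h')))

lemma Ct_bot {x : Lin h} : ¬ Ct h x ⊥ := by
  obtain ⟨a, rfl⟩ := exists_cl h x
  rw [← cl_zero, Ct_cl]
  intro h'
  have := h _ (Ax.con_ne a .zero)
  rw [eval_imp, eval_and, eval_ne, eval_ne] at this
  exact (this h').2 ⟨h.refl _, h.refl _⟩

lemma Ct_overlap {x y : Lin h} (h' : x ⊓ y ≠ ⊥) : Ct h x y := by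
  obtain ⟨a, rfl⟩ := exists_cl h x
  obtain ⟨b, rfl⟩ := exists_cl h y
  rw [Ct_cl]
  have := h _ (Ax.con_mul a b)
  rw [eval_imp, eval_ne] at this
  refine this fun h'' => h' ?_
  rw [← cl_mul, ← cl_zero]
  exact le_antisymm h''.1 h''.2

lemma Bd_le {x y : Lin h} (hxy : x ≤ y) (hy : Bd h y) : Bd h x := by
  obtain ⟨a, rfl⟩ := exists_cl h x
  obtain ⟨b, rfl, hb⟩ := hy
  have := h _ (Ax.bdd_le a b)
  rw [eval_imp, eval_and] at this
  exact ⟨a, rfl, this ⟨hb, hxy⟩⟩

lemma Bd_cl {a : Term} : Bd h (cl h a) ↔ Tr v (bdd a) := by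
  constructor
  · rintro ⟨b, hb, h'⟩
    have := h _ (Ax.bdd_le a b)
    rw [eval_imp, eval_and] at this
    exact this ⟨h', (cl_le h).mp hb.ge⟩
  · exact fun h' => ⟨a, rfl, h'⟩

lemma Bd_bot : Bd h ⊥ := ⟨.zero, rfl, h _ Ax.bdd_zero⟩

lemma Bd_sup {x y : Lin h} (hx : Bd h x) (hy : Bd h y) : Bd h (x ⊔ y) := by
  obtain ⟨a, rfl, ha⟩ := hx
  obtain ⟨b, rfl, hb⟩ := hy
  have := h _ (Ax.bdd_add a b)
  rw [eval_imp, eval_and] at this
  exact ⟨.add a b, rfl, this ⟨ha, hb⟩⟩

lemma Ct_conn (hS : Opt.Con ∈ S) {x : Lin h} (h₀ : x ≠ ⊥) (h₁ : x ≠ ⊤) : Ct h x xᶜ := by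
  obtain ⟨a, rfl⟩ := exists_cl h x
  rw [← cl_compl, Ct_cl]
  have := h _ (Ax.conn hS a)
  rw [eval_imp, eval_and, eval_ne, eval_ne] at this
  refine this ⟨fun h' => h₀ ?_, fun h' => h₁ ?_⟩
  · rw [← cl_zero]; exact le_antisymm h'.1 h'.2
  · rw [← cl_one]; exact le_antisymm h'.1 h'.2

lemma nondeg' (hS : Opt.NonDeg ∈ S) : (⊥ : Lin h) ≠ ⊤ := by
  intro h'
  have := h _ (Ax.nondeg hS)
  rw [eval_ne] at this
  exact this ⟨(cl_le h).mp h'.le, (cl_le h).mp h'.ge⟩

/-! ### minterms -/

/-- the minterm with index `i` of the variables `< K` -/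
def mt (i : ℕ) : ℕ → Lin h
  | 0 => ⊤
  | K + 1 => mt i K ⊓ (if i.testBit K then cl h (.var K) else (cl h (.var K))ᶜ)

lemma mt_congr {i j : ℕ} (K : ℕ) (hij : ∀ k < K, i.testBit k = j.testBit k) :
    mt h i K = mt h j K := by
  induction K with
  | zero => rfl
  | succ K ih =>
    rw [mt, mt, ih fun k hk => hij k (by omega), hij K (by omega)]

/-- induction over minterms for a property that defines an ideal -/
lemma ideal_mt {P : Lin h → Prop} (hsup : ∀ x y, P x → P y → P (x ⊔ y)) (K : ℕ) (y : Lin h)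
    (hP : ∀ i < 2 ^ K, P (mt h i K ⊓ y)) : P y := by
  induction K with
  | zero =>
    have := hP 0 (by norm_num)
    rwa [mt, top_inf_eq] at this
  | succ K ih =>
    refine ih fun i hi => ?_
    have h1 := hP i (by rw [pow_succ]; omega)
    have h2 := hP (i + 2 ^ K) (by rw [pow_succ]; omega)
    have e1 : i.testBit K = false := Nat.testBit_lt_two_pow hi
    have e2 : (i + 2 ^ K).testBit K = true := by
      rw [add_comm, Nat.testBit_two_pow_add_eq, e1]; rfl
    have e3 : mt h (i + 2 ^ K) K = mt h i K := mt_congr h K fun k hk => by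
      rw [add_comm, Nat.testBit_two_pow_add_gt hk]
    rw [mt, e1] at h1
    rw [mt, e2, e3] at h2
    have h3 := hsup _ _ h1 h2
    simp only [Bool.false_eq_true, if_false, if_true] at h3
    rwa [← inf_sup_right, ← inf_sup_left, sup_comm, sup_compl_eq_top, inf_top_eq] at h3

lemma mt_disjoint {i j : ℕ} {K : ℕ} (hi : i < 2 ^ K) (hj : j < 2 ^ K) (hij : i ≠ j) :
    mt h i K ⊓ mt h j K = ⊥ := by
  induction K generalizing i j with
  | zero => simp at hi hj; omega
  | succ K ih =>
    by_cases hb : i.testBit K = j.testBit K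
    · -- lower bits differ
      have hlow : i % 2 ^ K ≠ j % 2 ^ K := by
        intro h'
        refine hij (Nat.eq_of_testBit_eq fun k => ?_)
        rcases lt_trichotomy k K with hk | hk | hk
        · have := congrArg (fun n => n.testBit k) h'
          simpa [Nat.testBit_mod_two_pow, hk] using this
        · rw [hk]; exact hb
        · rw [Nat.testBit_lt_two_pow (lt_of_lt_of_le hi (Nat.pow_le_pow_right (by norm_num) hk)),
            Nat.testBit_lt_two_pow (lt_of_lt_of_le hj (Nat.pow_le_pow_right (by norm_num) hk))]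
      have e1 : mt h i K = mt h (i % 2 ^ K) K := mt_congr h K fun k hk => by
        simp [Nat.testBit_mod_two_pow, hk]
      have e2 : mt h j K = mt h (j % 2 ^ K) K := mt_congr h K fun k hk => by
        simp [Nat.testBit_mod_two_pow, hk]
      have := ih (Nat.mod_lt i (Nat.two_pow_pos K)) (Nat.mod_lt j (Nat.two_pow_pos K)) hlow
      rw [← e1, ← e2] at this
      rw [mt, mt, eq_bot_iff, ← this]
      exact inf_le_inf inf_le_left inf_le_left
    · rw [mt, mt, eq_bot_iff]
      refine le_trans (inf_le_inf inf_le_right inf_le_right) ?_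
      cases hx : i.testBit K <;> cases hy : j.testBit K <;> simp_all

/-- truth value of a term at the type `i` -/
def tev (i : ℕ) : Term → Bool
  | .zero => false
  | .one => true
  | .var p => i.testBit p
  | .add a b => tev i a || tev i b
  | .mul a b => tev i a && tev i b
  | .compl a => !tev i a

lemma mt_le_var {i K p : ℕ} (hp : p < K) :
    mt h i K ≤ if i.testBit p then cl h (.var p) else (cl h (.var p))ᶜ := by
  induction K with
  | zero => omega
  | succ K ih =>
    rcases Nat.lt_succ_iff_lt_or_eq.mp hp with hp | rfl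
    · exact le_trans inf_le_left (ih hp)
    · exact inf_le_right

lemma mt_le {i K : ℕ} (a : Term) (ha : ∀ p, a.Occurs p → p < K) :
    mt h i K ≤ if tev i a then cl h a else (cl h a)ᶜ := by
  induction a with
  | zero => simp [tev, cl_zero]
  | one => simp [tev, cl_one]
  | var p => exact mt_le_var h (ha p rfl)
  | add a b iha ihb =>
    have h₁ := iha fun p hp => ha p (Or.inl hp)
    have h₂ := ihb fun p hp => ha p (Or.inr hp)
    cases hx : tev i a <;> cases hy : tev i b <;>
      simp only [tev, hx, hy, cl_add, Bool.or_false, Bool.or_true, Bool.false_eq_true, if_false,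
        if_true, compl_sup] at h₁ h₂ ⊢
    · exact le_inf h₁ h₂
    · exact le_trans h₂ le_sup_right
    · exact le_trans h₁ le_sup_left
    · exact le_trans h₁ le_sup_left
  | mul a b iha ihb =>
    have h₁ := iha fun p hp => ha p (Or.inl hp)
    have h₂ := ihb fun p hp => ha p (Or.inr hp)
    cases hx : tev i a <;> cases hy : tev i b <;>
      simp only [tev, hx, hy, cl_mul, Bool.and_false, Bool.and_true, Bool.false_eq_true, if_false,
        if_true, compl_inf] at h₁ h₂ ⊢
    · exact le_trans h₁ le_sup_left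
    · exact le_trans h₁ le_sup_left
    · exact le_trans h₂ le_sup_right
    · exact le_inf h₁ h₂
  | compl a iha =>
    have h₁ := iha ha
    cases hx : tev i a <;>
      simp only [tev, hx, cl_compl, Bool.not_false, Bool.not_true, Bool.false_eq_true, if_false,
        if_true, compl_compl] at h₁ ⊢
    · exact h₁
    · exact h₁

/-- `i` is the index of a nonzero minterm -/
def Pt (K i : ℕ) : Prop := i < 2 ^ K ∧ mt h i K ≠ ⊥

lemma tev_of_inf_ne_bot {i K : ℕ} {a : Term} (ha : ∀ p, a.Occurs p → p < K)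
    (h' : mt h i K ⊓ cl h a ≠ ⊥) : tev i a = true := by
  by_contra hno
  have := mt_le h (i := i) a ha
  rw [if_neg hno] at this
  refine h' ?_
  rw [eq_bot_iff, ← compl_inf_self (cl h a)]
  exact inf_le_inf_right _ this

lemma le_iff_pt {K : ℕ} {a b : Term} (ha : ∀ p, a.Occurs p → p < K) (hb : ∀ p, b.Occurs p → p < K) :
    Tr v (le a b) ↔ ∀ i, Pt h K i → tev i a = true → tev i b = true := by
  rw [← cl_le h]
  constructor
  · rintro hab i ⟨-, hi⟩ hia
    by_contra hno
    have h₁ := mt_le h (i := i) a ha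
    have h₂ := mt_le h (i := i) b hb
    rw [if_pos hia] at h₁
    rw [if_neg hno] at h₂
    refine hi ?_
    rw [eq_bot_iff, ← inf_compl_self (cl h b)]
    exact le_inf (h₁.trans hab) h₂
  · intro h'
    refine ideal_mt h (P := fun x => x ≤ cl h b) (fun x y hx hy => sup_le hx hy) K _ fun i hi => ?_
    by_cases h₀ : mt h i K ⊓ cl h a = ⊥
    · rw [h₀]; exact bot_le
    · have hia := tev_of_inf_ne_bot h ha h₀
      have hib := h' i ⟨hi, fun h₁ => h₀ (by rw [h₁, bot_inf_eq])⟩ hia
      have h₂ := mt_le h (i := i) b hb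
      rw [if_pos hib] at h₂
      exact inf_le_left.trans h₂

lemma con_iff_pt {K : ℕ} {a b : Term} (ha : ∀ p, a.Occurs p → p < K)
    (hb : ∀ p, b.Occurs p → p < K) :
    Tr v (con a b) ↔ ∃ i j, Pt h K i ∧ Pt h K j ∧ tev i a = true ∧ tev j b = true ∧
      Ct h (mt h i K) (mt h j K) := by
  rw [← Ct_cl h]
  constructor
  · intro h'
    by_contra hno
    push Not at hno
    refine absurd h' ?_
    refine ideal_mt h (P := fun y => ¬ Ct h (cl h a) y)
      (fun x y hx hy => by rw [Ct_sup]; tauto) K _ fun j hj h₁ => ?_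
    refine absurd (Ct_symm h h₁) ?_
    refine ideal_mt h (P := fun y => ¬ Ct h _ y)
      (fun x y hx hy => by rw [Ct_sup]; tauto) K _ fun i hi h₂ => ?_
    have hj₀ : mt h j K ⊓ cl h b ≠ ⊥ := fun h₀ => by
      rw [h₀] at h₂
      exact Ct_bot h (Ct_symm h h₂)
    have hi₀ : mt h i K ⊓ cl h a ≠ ⊥ := fun h₀ => by
      rw [h₀] at h₂
      exact Ct_bot h h₂
    exact hno i j ⟨hi, fun h₃ => hi₀ (by rw [h₃, bot_inf_eq])⟩
      ⟨hj, fun h₃ => hj₀ (by rw [h₃, bot_inf_eq])⟩ (tev_of_inf_ne_bot h ha hi₀)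
      (tev_of_inf_ne_bot h hb hj₀) (Ct_symm h (Ct_mono₂ h inf_le_left inf_le_left h₂))
  · rintro ⟨i, j, -, -, hi, hj, h'⟩
    have h₁ := mt_le h (i := i) a ha
    have h₂ := mt_le h (i := j) b hb
    rw [if_pos hi] at h₁
    rw [if_pos hj] at h₂
    exact Ct_mono₂ h h₁ h₂ h'

lemma bdd_iff_pt {K : ℕ} {a : Term} (ha : ∀ p, a.Occurs p → p < K) :
    Tr v (bdd a) ↔ ∀ i, Pt h K i → tev i a = true → Bd h (mt h i K) := by
  rw [← Bd_cl h]
  constructor
  · intro h' i _ hi
    have h₁ := mt_le h (i := i) a ha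
    rw [if_pos hi] at h₁
    exact Bd_le h h₁ h'
  · intro h'
    refine ideal_mt h (P := Bd h) (fun x y => Bd_sup h) K _ fun i hi => ?_
    by_cases h₀ : mt h i K ⊓ cl h a = ⊥
    · rw [h₀]; exact Bd_bot h
    · exact Bd_le h inf_le_left (h' i ⟨hi, fun h₁ => h₀ (by rw [h₁, bot_inf_eq])⟩
        (tev_of_inf_ne_bot h ha h₀))

end

end Pool.Agent.Q220.RCC
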