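import Pool.Agent.Q220.RCC.Defs

/-!
# Soundness for relational frames

A frame has cells, a reflexive and symmetric contact relation of cells, and a set of bounded cells.
-/

namespace Pool.Agent.Q220.RCC

open Form

/-- Frames. -/
structure Frame where
  W : Type
  C : W → W → Prop
  refl : ∀ x, C x x
  symm : ∀ x y, C x y → C y x
  B : W → Prop

namespace Frame

/-- value of a term -/
def tv (F : Frame) (V : ℕ → Set F.W) : Term → Set F.W
  | .zero => ∅
  | .one => Set.univ
  | .var p => V p
  | .add a b => F.tv V a ∪ F.tv V b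
  | .mul a b => F.tv V a ∩ F.tv V b
  | .compl a => (F.tv V a)ᶜ

/-- truth of a formula -/
def sat (F : Frame) (V : ℕ → Set F.W) : Form → Prop
  | .bot => False
  | .le a b => F.tv V a ⊆ F.tv V b
  | .con a b => ∃ x ∈ F.tv V a, ∃ y ∈ F.tv V b, F.C x y
  | .bdd a => ∀ x ∈ F.tv V a, F.B x
  | .imp φ ψ => F.sat V φ → F.sat V ψ

/-- the frame is appropriate for the options `S` -/
def Good (F : Frame) (S : Set Opt) : Prop :=
  (Opt.Con ∈ S → ∀ X : Set F.W, X.Nonempty → Xᶜ.Nonempty → ∃ x ∈ X, ∃ y ∈ Xᶜ, F.C x y) ∧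
    (Opt.NonDeg ∈ S → Nonempty F.W)

variable {F : Frame} {V : ℕ → Set F.W}

lemma sat_imp {φ ψ : Form} : F.sat V (imp φ ψ) ↔ (F.sat V φ → F.sat V ψ) := Iff.rfl

lemma sat_neg {φ : Form} : F.sat V (neg φ) ↔ ¬ F.sat V φ := Iff.rfl

lemma sat_or {φ ψ : Form} : F.sat V (or φ ψ) ↔ F.sat V φ ∨ F.sat V ψ := by
  unfold Form.or
  rw [sat_imp, sat_neg]
  tauto

lemma sat_and {φ ψ : Form} : F.sat V (and φ ψ) ↔ F.sat V φ ∧ F.sat V ψ := by
  unfold Form.and
  rw [sat_neg, sat_imp, sat_neg]
  tauto

lemma sat_iff {φ ψ : Form} : F.sat V (iff φ ψ) ↔ (F.sat V φ ↔ F.sat V ψ) := by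
  unfold Form.iff
  rw [sat_and, sat_imp, sat_imp]
  tauto

lemma sat_le {a b : Term} : F.sat V (le a b) ↔ F.tv V a ⊆ F.tv V b := Iff.rfl

lemma sat_con {a b : Term} :
    F.sat V (con a b) ↔ ∃ x ∈ F.tv V a, ∃ y ∈ F.tv V b, F.C x y := Iff.rfl

lemma sat_bdd {a : Term} : F.sat V (bdd a) ↔ ∀ x ∈ F.tv V a, F.B x := Iff.rfl

lemma sat_eq {a b : Term} : F.sat V (eq a b) ↔ F.tv V a = F.tv V b := by
  unfold Form.eq
  rw [sat_and, sat_le, sat_le]
  exact ⟨fun h => Set.Subset.antisymm h.1 h.2, fun h => ⟨h.le, h.ge⟩⟩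

lemma sat_ne {a b : Term} : F.sat V (ne a b) ↔ F.tv V a ≠ F.tv V b := by
  unfold Form.ne
  rw [sat_neg, sat_eq]

lemma eval_sat (φ : Form) : eval (fun ψ => (Classical.propDecidable (F.sat V ψ)).decide) φ = true ↔
    F.sat V φ := by
  induction φ with
  | bot => simp [eval, sat]
  | le a b => simp [eval]
  | con a b => simp [eval]
  | bdd a => simp [eval]
  | imp φ ψ h₁ h₂ =>
    rw [sat_imp, ← h₁, ← h₂]
    simp only [eval, Bool.or_eq_true, Bool.not_eq_true']
    generalize eval _ φ = x
    cases x <;> simp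

lemma sat_taut {φ : Form} (h : Taut φ) : F.sat V φ := (eval_sat φ).mp (h _)

lemma sat_ax {S : Set Opt} (hF : F.Good S) {φ : Form} (h : Ax S φ) : F.sat V φ := by
  cases h with
  | le_refl a => exact subset_rfl
  | le_trans a b c => rw [sat_imp, sat_and]; exact fun h => h.1.trans h.2
  | zero_le a => exact Set.empty_subset _
  | le_one a => exact Set.subset_univ _
  | mul_left a b => exact Set.inter_subset_left
  | mul_right a b => exact Set.inter_subset_right
  | le_mul a b c => rw [sat_imp, sat_and]; exact fun h => Set.subset_inter h.1 h.2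
  | add_left a b => exact Set.subset_union_left
  | add_right a b => exact Set.subset_union_right
  | add_le a b c => rw [sat_imp, sat_and]; exact fun h => Set.union_subset h.1 h.2
  | distrib a b c =>
    rw [sat_le]
    simp only [tv]
    rw [Set.inter_union_distrib_left]
  | mul_compl a => rw [sat_le]; simp [tv]
  | add_compl a => rw [sat_le]; simp [tv]
  | nondeg h =>
    obtain ⟨x⟩ := hF.2 h
    rw [sat_ne]
    intro h'
    have : x ∈ F.tv V .one := Set.mem_univ x
    rw [← h'] at this
    exact this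
  | congr a b c =>
    rw [sat_imp, sat_and, sat_eq, sat_con, sat_con]
    rintro ⟨h, h'⟩
    rwa [← h]
  | con_ne a b =>
    rw [sat_imp, sat_and, sat_ne, sat_ne, sat_con]
    rintro ⟨x, hx, y, hy, -⟩
    exact ⟨fun h => by rw [h] at hx; exact hx, fun h => by rw [h] at hy; exact hy⟩
  | con_symm a b =>
    rw [sat_imp, sat_con, sat_con]
    rintro ⟨x, hx, y, hy, h⟩
    exact ⟨y, hy, x, hx, F.symm _ _ h⟩
  | con_add a b c =>
    rw [sat_iff, sat_or, sat_con, sat_con, sat_con]
    constructor
    · rintro ⟨x, hx, y, hy | hy, h⟩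
      · exact Or.inl ⟨x, hx, y, hy, h⟩
      · exact Or.inr ⟨x, hx, y, hy, h⟩
    · rintro (⟨x, hx, y, hy, h⟩ | ⟨x, hx, y, hy, h⟩)
      · exact ⟨x, hx, y, Or.inl hy, h⟩
      · exact ⟨x, hx, y, Or.inr hy, h⟩
  | con_mul a b =>
    rw [sat_imp, sat_ne, sat_con]
    intro h
    obtain ⟨x, hx⟩ := Set.nonempty_iff_ne_empty.mpr h
    exact ⟨x, hx.1, x, hx.2, F.refl x⟩
  | bdd_zero => intro x hx; exact hx.elim
  | bdd_le a b => rw [sat_imp, sat_and, sat_bdd, sat_bdd]; exact fun h x hx => h.1 x (h.2 hx)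
  | bdd_add a b =>
    rw [sat_imp, sat_and, sat_bdd, sat_bdd, sat_bdd]
    rintro ⟨h₁, h₂⟩ x (hx | hx)
    · exact h₁ x hx
    · exact h₂ x hx
  | conn h a =>
    rw [sat_imp, sat_and, sat_ne, sat_ne, sat_con]
    rintro ⟨h₁, h₂⟩
    exact hF.1 h _ (Set.nonempty_iff_ne_empty.mpr h₁) (Set.nonempty_compl.mpr h₂)

end Frame

open Pool.Agent.Q220.RCC.Frame

/-- A covering of a frame by another one. -/
structure Cover (F F' : Frame) where
  f : F'.W → F.W
  surj : Function.Surjective f
  mono : ∀ x y, F'.C x y → F.C (f x) (f y)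
  back : ∀ u v, F.C u v → ∃ x y, f x = u ∧ f y = v ∧ F'.C x y
  bdd : ∀ u, F.B u ↔ ∀ x, f x = u → F'.B x
  fiber : ∀ x y, f x = f y → F'.C x y

namespace Cover

variable {F F' : Frame} (c : Cover F F')

include c in
lemma good {S : Set Opt} (h : F.Good S) : F'.Good S := by
  refine ⟨fun hS X hX hX' => ?_, fun hS => ?_⟩
  · by_contra hno
    push Not at hno
    -- X is a union of fibres
    have hfib : ∀ x y, c.f x = c.f y → x ∈ X → y ∈ X := by
      intro x y hxy hx
      by_contra hy
      exact hno x hx y hy (c.fiber x y hxy)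
    obtain ⟨x, hx⟩ := hX
    obtain ⟨y, hy⟩ := hX'
    obtain ⟨u, hu, v, hv, huv⟩ := h.1 hS (c.f '' X) ⟨c.f x, x, hx, rfl⟩
      ⟨c.f y, fun ⟨z, hz, hzy⟩ => hy (hfib z y hzy hz)⟩
    obtain ⟨x', y', hx', hy', hC⟩ := c.back u v huv
    obtain ⟨z, hz, hzu⟩ := hu
    refine hno x' (hfib z x' (hzu.trans hx'.symm) hz) y' (fun hy'' => hv ?_) hC
    rw [← hy']
    exact ⟨y', hy'', rfl⟩
  · obtain ⟨x⟩ := h.2 hS
    obtain ⟨y, -⟩ := c.surj x
    exact ⟨y⟩

/-- the pulled back valuation, with a new value of `p` -/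
def val (V : ℕ → Set F.W) (p : ℕ) (P : Set F'.W) : ℕ → Set F'.W :=
  fun q => if q = p then P else c.f ⁻¹' (V q)

variable (V : ℕ → Set F.W) (p : ℕ) (P : Set F'.W)

lemma tv_var : F'.tv (c.val V p P) (.var p) = P := by simp [tv, val]

lemma tv_eq (a : Term) (h : ¬ a.Occurs p) : F'.tv (c.val V p P) a = c.f ⁻¹' (F.tv V a) := by
  induction a with
  | zero => rfl
  | one => rfl
  | var q =>
    have : q ≠ p := fun h' => h h'.symm
    simp [tv, val, this]
  | add a b ha hb =>
    simp only [Term.Occurs, not_or] at h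
    simp only [tv]
    rw [ha h.1, hb h.2, Set.preimage_union]
  | mul a b ha hb =>
    simp only [Term.Occurs, not_or] at h
    simp only [tv]
    rw [ha h.1, hb h.2, Set.preimage_inter]
  | compl a ha =>
    simp only [tv]
    rw [ha h, Set.preimage_compl]

lemma sat_iff' (φ : Form) (h : ¬ φ.Occurs p) : F'.sat (c.val V p P) φ ↔ F.sat V φ := by
  induction φ with
  | bot => rfl
  | le a b =>
    simp only [Form.Occurs, not_or] at h
    rw [sat_le, sat_le, c.tv_eq V p P a h.1, c.tv_eq V p P b h.2]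
    exact Set.preimage_subset_preimage_iff (by rw [c.surj.range_eq]; exact Set.subset_univ _)
  | con a b =>
    simp only [Form.Occurs, not_or] at h
    rw [sat_con, sat_con, c.tv_eq V p P a h.1, c.tv_eq V p P b h.2]
    constructor
    · rintro ⟨x, hx, y, hy, hC⟩
      exact ⟨c.f x, hx, c.f y, hy, c.mono x y hC⟩
    · rintro ⟨u, hu, v, hv, hC⟩
      obtain ⟨x, y, rfl, rfl, h'⟩ := c.back u v hC
      exact ⟨x, hu, y, hv, h'⟩
  | bdd a =>
    rw [sat_bdd, sat_bdd, c.tv_eq V p P a h]
    constructor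
    · intro h' u hu
      rw [c.bdd]
      rintro x rfl
      exact h' x hu
    · intro h' x hx
      exact (c.bdd (c.f x)).mp (h' _ hx) x rfl
  | imp φ ψ h₁ h₂ =>
    simp only [Form.Occurs, not_or] at h
    rw [sat_imp, sat_imp, h₁ h.1, h₂ h.2]

end Cover

/-! ### The coverings used for the rules -/

/-- A cell `u` gets a second copy `none`, with contacts prescribed by `N` and boundedness `β`. -/
abbrev copyFrame (F : Frame) (N : F.W → Prop) (β : Prop) : Frame where
  W := Option F.W
  C x y := match x, y with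
    | some x, some y => F.C x y
    | some x, none => N x
    | none, some y => N y
    | none, none => True
  refl x := by cases x <;> simp [F.refl]
  symm x y h := by
    cases x <;> cases y <;> simp_all
    exact F.symm _ _ h
  B x := match x with
    | some x => F.B x
    | none => β

/-- the covering by the frame with a copy -/
def copyCover (F : Frame) (u : F.W) (N : F.W → Prop) (β : Prop) (hN : N u)
    (hN' : ∀ y, N y → F.C u y) (hβ : F.B u → β) : Cover F (copyFrame F N β) where
  f x := match x with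
    | some x => x
    | none => u
  surj x := ⟨some x, rfl⟩
  mono x y h := by
    cases x with
    | none =>
      cases y with
      | none => exact F.refl u
      | some y => exact hN' y h
    | some x =>
      cases y with
      | none => exact F.symm _ _ (hN' x h)
      | some y => exact h
  back x y h := ⟨some x, some y, rfl, rfl, h⟩
  bdd x := by
    constructor
    · rintro h (_ | y) hy
      · dsimp only at hy; subst hy; exact hβ h
      · dsimp only at hy; subst hy; exact h
    · intro h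
      exact h (some x) rfl
  fiber x y h := by
    cases x with
    | none =>
      cases y with
      | none => trivial
      | some y =>
        dsimp only at h
        subst h
        exact hN
    | some x =>
      cases y with
      | none =>
        dsimp only at h
        subst h
        exact hN
      | some y =>
        dsimp only at h
        subst h
        exact F.refl _

/-- All cells are doubled; contacts between the sets of pairs `bad` are removed. -/
abbrev doubleFrame (F : Frame) (bad : F.W × Bool → F.W × Bool → Prop) (β : Prop)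
    (hbad : ∀ x i j, ¬ bad (x, i) (x, j)) : Frame where
  W := F.W × Bool
  C x y := F.C x.1 y.1 ∧ ¬ bad x y ∧ ¬ bad y x
  refl x := ⟨F.refl _, hbad _ _ _, hbad _ _ _⟩
  symm x y h := ⟨F.symm _ _ h.1, h.2.2, h.2.1⟩
  B x := F.B x.1 ∨ (x.2 = true ∧ β)

/-- the covering by the doubled frame -/
def doubleCover (F : Frame) (bad : F.W × Bool → F.W × Bool → Prop) (β : Prop)
    (hbad : ∀ x i j, ¬ bad (x, i) (x, j))
    (hback : ∀ u v, F.C u v → ∃ i j, ¬ bad (u, i) (v, j) ∧ ¬ bad (v, j) (u, i)) :
    Cover F (doubleFrame F bad β hbad) where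
  f := Prod.fst
  surj x := ⟨(x, true), rfl⟩
  mono x y h := h.1
  back u v h := by
    obtain ⟨i, j, h₁, h₂⟩ := hback u v h
    exact ⟨(u, i), (v, j), rfl, rfl, h, h₁, h₂⟩
  bdd u := by
    constructor
    · rintro h ⟨x, i⟩ hx
      dsimp only at hx
      subst hx
      exact Or.inl h
    · intro h
      rcases h (u, false) rfl with h | h
      · exact h
      · exact absurd h.1 (by simp)
  fiber x y h := by
    obtain ⟨x, i⟩ := x
    obtain ⟨y, j⟩ := y
    dsimp only at h
    subst h
    exact ⟨F.refl _, hbad _ _ _, hbad _ _ _⟩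

theorem sound {S : Set Opt} {φ : Form} (h : Prov false S φ) :
    ∀ F : Frame, F.Good S → ∀ V, F.sat V φ := by
  induction h with
  | taut h => exact fun F _ V => sat_taut h
  | ax h => exact fun F hF V => sat_ax hF h
  | mp _ _ h₁ h₂ => exact fun F hF V => h₁ F hF V (h₂ F hF V)
  | @bound1 α a b p hα ha hb _ ih =>
    intro F hF V hsα
    rw [sat_neg, sat_con]
    rintro ⟨u, hu, v, hv, huv⟩
    let c := copyCover F v (fun y => F.C v y) True (F.refl v) (fun y hy => hy) (fun _ => trivial)
    have key := ih _ (c.good hF) (c.val V p {none})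
    rw [sat_imp, sat_imp, sat_neg, sat_and, sat_bdd, sat_le, sat_con, c.tv_var V p, c.tv_eq V p _ a ha,
      c.tv_eq V p _ b hb] at key
    refine key ((c.sat_iff' V p _ α hα).mpr hsα) ⟨?_, ?_⟩ ⟨some u, hu, none, rfl, ?_⟩
    · rintro x rfl
      trivial
    · rintro x rfl
      exact hv
    · exact F.symm _ _ huv
  | @bound2 hl α a p hα ha _ ih =>
    intro F hF V hsα
    rw [sat_neg, sat_bdd]
    intro hB
    let P : Set (F.W × Bool) := {x | x.1 ∈ F.tv V a ∨ x.2 = true}
    let bad : F.W × Bool → F.W × Bool → Prop := fun x y => x.1 ∈ F.tv V a ∧ y ∉ P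
    have hbad : ∀ x i j, ¬ bad (x, i) (x, j) := fun x i j h => h.2 (Or.inl h.1)
    let c := doubleCover F bad True hbad (fun u v _ => ⟨true, true,
      fun h => h.2 (Or.inr rfl), fun h => h.2 (Or.inr rfl)⟩)
    have key := ih _ (c.good hF) (c.val V p P)
    unfold ll at key
    rw [sat_imp, sat_neg, sat_and, sat_neg, sat_bdd, sat_con, c.tv_var V p, c.tv_eq V p _ a ha] at key
    refine key ((c.sat_iff' V p _ α hα).mpr hsα) ⟨?_, ?_⟩
    · rintro ⟨x, i⟩ (hx | hx)
      · exact Or.inl (hB x hx)
      · exact Or.inr ⟨hx, trivial⟩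
    · rintro ⟨x, hx, y, hy, hC⟩
      refine hC.2.1 ⟨hx, ?_⟩
      intro hyP
      refine hy ?_
      rw [c.tv_var V p]
      exact hyP
  | @bound2lit hl => exact absurd hl (by simp)
  | @ext hS α a p hα ha _ ih =>
    intro F hF V hsα
    rw [sat_eq]
    refine Set.Subset.antisymm (Set.subset_univ _) ?_
    intro u _
    by_contra hu
    let c := copyCover F u (fun y => y = u) (F.B u) rfl (fun y hy => by rw [hy]; exact F.refl u) id
    have key := ih _ (c.good hF) (c.val V p {none})
    rw [sat_imp, sat_or, sat_eq, sat_con, c.tv_var V p, c.tv_eq V p _ a ha] at key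
    rcases key ((c.sat_iff' V p _ α hα).mpr hsα) with h | ⟨x, hx, y, rfl, hC⟩
    · have h' : (none : Option F.W) ∈ ({none} : Set (Option F.W)) := rfl
      rw [h] at h'
      exact h'
    · cases x with
      | none => exact hu hx
      | some x =>
        have : x = u := hC
        subst this
        exact hu hx
  | @nor hS α a b p hα ha hb _ ih =>
    intro F hF V hsα
    by_contra hno
    rw [sat_con] at hno
    push Not at hno
    let P : Set (F.W × Bool) := {x | x.1 ∈ F.tv V b ∨ (x.1 ∉ F.tv V a ∧ x.2 = true)}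
    let bad : F.W × Bool → F.W × Bool → Prop := fun x y =>
      (x.1 ∈ F.tv V a ∧ y ∈ P) ∨ (x ∉ P ∧ y.1 ∈ F.tv V b)
    have hdis : ∀ x, x ∈ F.tv V a → x ∉ F.tv V b := fun x hx hx' => hno x hx x hx' (F.refl x)
    have hbad : ∀ x i j, ¬ bad (x, i) (x, j) := by
      rintro x i j (⟨h₁, h₂⟩ | ⟨h₁, h₂⟩)
      · rcases h₂ with h₂ | h₂
        · exact hdis x h₁ h₂
        · exact h₂.1 h₁
      · exact h₁ (Or.inl h₂)
    let c := doubleCover F bad True hbad (by
      intro u v huv
      by_cases hu : u ∈ F.tv V a ∨ v ∈ F.tv V a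
      · have h1 : ∀ w, (w = u ∨ w = v) → w ∉ F.tv V b := by
          intro w hw hwb
          rcases hu with hu | hu
          · rcases hw with rfl | rfl
            · exact hdis _ hu hwb
            · exact hno u hu _ hwb huv
          · rcases hw with rfl | rfl
            · exact hno v hu _ hwb (F.symm _ _ huv)
            · exact hdis _ hu hwb
        have hu' := h1 u (Or.inl rfl)
        have hv' := h1 v (Or.inr rfl)
        refine ⟨false, false, ?_, ?_⟩
        · rintro (⟨-, h | h⟩ | ⟨-, h⟩)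
          · exact hv' h
          · simp at h
          · exact hv' h
        · rintro (⟨-, h | h⟩ | ⟨-, h⟩)
          · exact hu' h
          · simp at h
          · exact hu' h
      · push Not at hu
        refine ⟨true, true, ?_, ?_⟩
        · rintro (⟨h, -⟩ | ⟨h, -⟩)
          · exact hu.1 h
          · exact h (Or.inr ⟨hu.1, rfl⟩)
        · rintro (⟨h, -⟩ | ⟨h, -⟩)
          · exact hu.2 h
          · exact h (Or.inr ⟨hu.2, rfl⟩))
    have key := ih _ (c.good hF) (c.val V p P)
    rw [sat_imp, sat_or, sat_con, sat_con, c.tv_var V p, c.tv_eq V p _ a ha,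
      c.tv_eq V p _ b hb] at key
    rcases key ((c.sat_iff' V p _ α hα).mpr hsα) with ⟨x, hx, y, hy, hC⟩ | ⟨x, hx, y, hy, hC⟩
    · exact hC.2.1 (Or.inl ⟨hx, hy⟩)
    · refine hC.2.1 (Or.inr ⟨?_, hy⟩)
      intro hxP
      refine hx ?_
      rw [c.tv_var V p]
      exact hxP

end Pool.Agent.Q220.RCC
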