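import Pool.Agent.Q220.RCC.Algebra
import Pool.Agent.Q220.RCC.Sound

/-!
# Coded frames: theorems are the formulas valid in finitely many finite frames
-/

namespace Pool.Agent.Q220.RCC

open Form Pool.Agent.Q220.RCC.Frame

/-- truth of a formula in the frame with the cells `i < N` in `w`, contact `c`, bounded cells `b` -/
def fev (N w b c : ℕ) : Form → Bool
  | .bot => false
  | .le s t => decide (∀ i < N, w.testBit i = true → tev i s = true → tev i t = true)
  | .con s t => decide (∃ i < N, ∃ j < N, w.testBit i = true ∧ w.testBit j = true ∧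
      c.testBit (i * N + j) = true ∧ tev i s = true ∧ tev j t = true)
  | .bdd s => decide (∀ i < N, w.testBit i = true → tev i s = true → b.testBit i = true)
  | .imp φ ψ => !fev N w b c φ || fev N w b c ψ

/-- contact is reflexive and symmetric, and the conditions for the options in `S` hold -/
def Legit (S : Set Opt) (N w c : ℕ) : Prop :=
  (∀ i < N, w.testBit i = true → c.testBit (i * N + i) = true) ∧
  (∀ i < N, ∀ j < N, w.testBit i = true → w.testBit j = true → c.testBit (i * N + j) = true →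
    c.testBit (j * N + i) = true) ∧
  (Opt.Con ∈ S → ∀ x < 2 ^ N, (∃ i < N, w.testBit i = true ∧ x.testBit i = true) →
    (∃ i < N, w.testBit i = true ∧ x.testBit i = false) →
    ∃ i < N, ∃ j < N, w.testBit i = true ∧ w.testBit j = true ∧ x.testBit i = true ∧
      x.testBit j = false ∧ c.testBit (i * N + j) = true) ∧
  (Opt.NonDeg ∈ S → ∃ i < N, w.testBit i = true)

lemma exists_bits (P : ℕ → Prop) (N : ℕ) :
    ∃ w < 2 ^ N, ∀ i, w.testBit i = true ↔ i < N ∧ P i := by
  classical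
  induction N with
  | zero => exact ⟨0, by norm_num, fun i => by simp⟩
  | succ N ih =>
    obtain ⟨w, hw, h⟩ := ih
    by_cases hN : P N
    · refine ⟨w ||| 2 ^ N, Nat.or_lt_two_pow (hw.trans (Nat.pow_lt_pow_right (by norm_num)
        (by omega))) (Nat.pow_lt_pow_right (by norm_num) (by omega)), fun i => ?_⟩
      rw [Nat.testBit_or, Nat.testBit_two_pow, Bool.or_eq_true, h]
      simp only [decide_eq_true_eq]
      constructor
      · rintro (⟨h₁, h₂⟩ | rfl)
        · exact ⟨by omega, h₂⟩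
        · exact ⟨by omega, hN⟩
      · rintro ⟨h₁, h₂⟩
        rcases Nat.lt_succ_iff_lt_or_eq.mp h₁ with h₁ | h₁
        · exact Or.inl ⟨h₁, h₂⟩
        · exact Or.inr h₁.symm
    · refine ⟨w, hw.trans (Nat.pow_lt_pow_right (by norm_num) (by omega)), fun i => ?_⟩
      rw [h]
      constructor
      · rintro ⟨h₁, h₂⟩
        exact ⟨by omega, h₂⟩
      · rintro ⟨h₁, h₂⟩
        refine ⟨?_, h₂⟩
        rcases Nat.lt_succ_iff_lt_or_eq.mp h₁ with h₁ | h₁
        · exact h₁
        · exact absurd (h₁ ▸ h₂) hN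

section

variable {S : Set Opt}

/-- the frame with given code -/
def codedFrame {N w c : ℕ} (b : ℕ) (h : Legit S N w c) : Frame where
  W := {i : ℕ // i < N ∧ w.testBit i = true}
  C x y := c.testBit (x.1 * N + y.1) = true
  refl x := h.1 x.1 x.2.1 x.2.2
  symm x y hxy := h.2.1 x.1 x.2.1 y.1 y.2.1 x.2.2 y.2.2 hxy
  B x := b.testBit x.1 = true

/-- its valuation -/
def codedVal {N w c : ℕ} (b : ℕ) (h : Legit S N w c) (p : ℕ) : Set (codedFrame b h).W :=
  {x | x.1.testBit p = true}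

lemma coded_tv {N w c b : ℕ} (h : Legit S N w c) (a : Term) (x : (codedFrame b h).W) :
    x ∈ (codedFrame b h).tv (codedVal b h) a ↔ tev x.1 a = true := by
  induction a with
  | zero => simp [tv, tev]
  | one => simp [tv, tev]
  | var p => rfl
  | add a b ha hb => simp only [tv, tev, Set.mem_union, ha, hb, Bool.or_eq_true]
  | mul a b ha hb => simp only [tv, tev, Set.mem_inter_iff, ha, hb, Bool.and_eq_true]
  | compl a ha => simp only [tv, tev, Set.mem_compl_iff, ha, Bool.not_eq_true', Bool.not_eq_true]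

lemma coded_sat {N w c b : ℕ} (h : Legit S N w c) (φ : Form) :
    (codedFrame b h).sat (codedVal b h) φ ↔ fev N w b c φ = true := by
  induction φ with
  | bot => simp [sat, fev]
  | le s t =>
    rw [sat_le]
    simp only [fev, decide_eq_true_eq]
    constructor
    · intro h' i hi hw hs
      exact (coded_tv h t ⟨i, hi, hw⟩).mp (h' ((coded_tv h s ⟨i, hi, hw⟩).mpr hs))
    · intro h' x hx
      exact (coded_tv h t x).mpr (h' x.1 x.2.1 x.2.2 ((coded_tv h s x).mp hx))
  | con s t =>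
    rw [sat_con]
    simp only [fev, decide_eq_true_eq]
    constructor
    · rintro ⟨x, hx, y, hy, hC⟩
      exact ⟨x.1, x.2.1, y.1, y.2.1, x.2.2, y.2.2, hC, (coded_tv h s x).mp hx,
        (coded_tv h t y).mp hy⟩
    · rintro ⟨i, hi, j, hj, hwi, hwj, hC, hs, ht⟩
      exact ⟨⟨i, hi, hwi⟩, (coded_tv h s _).mpr hs, ⟨j, hj, hwj⟩, (coded_tv h t _).mpr ht, hC⟩
  | bdd s =>
    rw [sat_bdd]
    simp only [fev, decide_eq_true_eq]
    constructor
    · intro h' i hi hw hs
      exact h' ⟨i, hi, hw⟩ ((coded_tv h s _).mpr hs)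
    · intro h' x hx
      exact h' x.1 x.2.1 x.2.2 ((coded_tv h s x).mp hx)
  | imp φ ψ h₁ h₂ =>
    rw [sat_imp, h₁, h₂]
    simp only [fev]
    generalize fev N w b c φ = x
    generalize fev N w b c ψ = y
    cases x <;> cases y <;> simp

lemma coded_good {N w c : ℕ} (b : ℕ) (h : Legit S N w c) : (codedFrame b h).Good S := by
  refine ⟨fun hS X hX hX' => ?_, fun hS => ?_⟩
  · obtain ⟨x, hx, hxb⟩ := exists_bits (fun i => ∃ hi : i < N ∧ w.testBit i = true,
      (⟨i, hi⟩ : (codedFrame b h).W) ∈ X) N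
    obtain ⟨y, hy⟩ := hX
    obtain ⟨z, hz⟩ := hX'
    obtain ⟨i, hi, j, hj, hwi, hwj, hxi, hxj, hC⟩ := h.2.2.1 hS x hx
      ⟨y.1, y.2.1, y.2.2, (hxb y.1).mpr ⟨y.2.1, y.2, hy⟩⟩
      ⟨z.1, z.2.1, z.2.2, by
        rw [← Bool.not_eq_true, hxb]
        rintro ⟨-, h₁, h₂⟩
        exact hz h₂⟩
    obtain ⟨-, h₁, h₂⟩ := (hxb i).mp hxi
    refine ⟨⟨i, h₁⟩, h₂, ⟨j, hj, hwj⟩, ?_, hC⟩
    intro h₃
    rw [← Bool.not_eq_true, hxb] at hxj
    exact hxj ⟨hj, ⟨hj, hwj⟩, h₃⟩
  · obtain ⟨i, hi, hw⟩ := h.2.2.2 hS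
    exact ⟨⟨i, hi, hw⟩⟩

theorem coded_complete {φ : Form} {K : ℕ} (hK : ∀ p, φ.Occurs p → p < K)
    (hφ : ¬ Prov false S φ) :
    ∃ w < 2 ^ 2 ^ K, ∃ b < 2 ^ 2 ^ K, ∃ c < 2 ^ (2 ^ K * 2 ^ K), Legit S (2 ^ K) w c ∧
      ¬ fev (2 ^ K) w b c φ = true := by
  obtain ⟨v, hv, hvφ⟩ := exists_val hφ
  have h : IsVal S v := hv
  obtain ⟨w, hw, hwb⟩ := exists_bits (fun i => mt h i K ≠ ⊥) (2 ^ K)
  obtain ⟨b, hb, hbb⟩ := exists_bits (fun i => Bd h (mt h i K)) (2 ^ K)
  obtain ⟨c, hc, hcb⟩ := exists_bits (fun n => Ct h (mt h (n / 2 ^ K) K) (mt h (n % 2 ^ K) K))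
    (2 ^ K * 2 ^ K)
  have hN : 0 < 2 ^ K := Nat.two_pow_pos K
  have hpt : ∀ i, i < 2 ^ K → (w.testBit i = true ↔ Pt h K i) := fun i hi => by rw [hwb]; rfl
  have hcon : ∀ i j, i < 2 ^ K → j < 2 ^ K →
      (c.testBit (i * 2 ^ K + j) = true ↔ Ct h (mt h i K) (mt h j K)) := by
    intro i j hi hj
    have e1 : (i * 2 ^ K + j) / 2 ^ K = i := by
      rw [mul_comm, Nat.mul_add_div hN, Nat.div_eq_of_lt hj, add_zero]
    have e2 : (i * 2 ^ K + j) % 2 ^ K = j := by
      rw [mul_comm, Nat.mul_add_mod, Nat.mod_eq_of_lt hj]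
    rw [hcb, e1, e2]
    refine and_iff_right ?_
    calc i * 2 ^ K + j < i * 2 ^ K + 2 ^ K := by omega
      _ = (i + 1) * 2 ^ K := by ring
      _ ≤ 2 ^ K * 2 ^ K := Nat.mul_le_mul_right _ (by omega)
  refine ⟨w, hw, b, hb, c, hc, ⟨?_, ?_, ?_, ?_⟩, ?_⟩
  · intro i hi hwi
    rw [hcon i i hi hi]
    refine Ct_overlap h ?_
    rw [inf_idem]
    exact ((hpt i hi).mp hwi).2
  · intro i hi j hj _ _ hC
    rw [hcon i j hi hj] at hC
    rw [hcon j i hj hi]
    exact Ct_symm h hC
  · rintro hS x hx ⟨i₀, hi₀, hwi₀, hxi₀⟩ ⟨j₀, hj₀, hwj₀, hxj₀⟩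
    -- the sum of the minterms in x
    let y : Lin h := (Finset.range (2 ^ K)).sup fun i => if x.testBit i then mt h i K else ⊥
    have hy₁ : ∀ i, i < 2 ^ K → x.testBit i = true → mt h i K ≤ y := by
      intro i hi hxi
      have := Finset.le_sup (f := fun i => if x.testBit i then mt h i K else (⊥ : Lin h))
        (Finset.mem_range.mpr hi)
      simpa only [hxi, if_true] using this
    have hy₂ : ∀ j, j < 2 ^ K → x.testBit j = false → mt h j K ≤ yᶜ := by
      intro j hj hxj
      rw [le_compl_iff_disjoint_right, Finset.disjoint_sup_right]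
      intro i hi
      by_cases hxi : x.testBit i = true
      · simp only [hxi, if_true]
        rw [disjoint_iff]
        refine mt_disjoint h hj (Finset.mem_range.mp hi) ?_
        rintro rfl
        rw [hxi] at hxj
        exact absurd hxj (by simp)
      · simp only [hxi, Bool.false_eq_true, if_false]
        exact disjoint_bot_right
    have hy₀ : y ≠ ⊥ := by
      intro h'
      have := hy₁ i₀ hi₀ hxi₀
      rw [h', le_bot_iff] at this
      exact ((hpt i₀ hi₀).mp hwi₀).2 this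
    have hy₃ : y ≠ ⊤ := by
      intro h'
      have := hy₂ j₀ hj₀ hxj₀
      rw [h', compl_top, le_bot_iff] at this
      exact ((hpt j₀ hj₀).mp hwj₀).2 this
    have hCy := Ct_conn h hS hy₀ hy₃
    by_contra hno
    push Not at hno
    refine absurd hCy ?_
    refine ideal_mt h (P := fun z => ¬ Ct h y z)
      (fun x y hx hy => by rw [Ct_sup]; tauto) K _ fun j hj h₁ => ?_
    refine absurd (Ct_symm h h₁) ?_
    refine ideal_mt h (P := fun z => ¬ Ct h _ z)
      (fun x y hx hy => by rw [Ct_sup]; tauto) K _ fun i hi h₂ => ?_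
    have hj' : mt h j K ⊓ yᶜ ≠ ⊥ := fun h₀ => by
      rw [h₀] at h₂
      exact Ct_bot h (Ct_symm h h₂)
    have hi' : mt h i K ⊓ y ≠ ⊥ := fun h₀ => by
      rw [h₀] at h₂
      exact Ct_bot h h₂
    have hxj : x.testBit j = false := by
      by_contra hxj
      rw [Bool.not_eq_false] at hxj
      refine hj' ?_
      rw [eq_bot_iff, ← inf_compl_self y]
      exact inf_le_inf_right _ (hy₁ j hj hxj)
    have hxi : x.testBit i = true := by
      by_contra hxi
      rw [Bool.not_eq_true] at hxi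
      refine hi' ?_
      rw [eq_bot_iff, ← compl_inf_self y]
      exact inf_le_inf_right _ (hy₂ i hi hxi)
    have hwi : w.testBit i = true := (hpt i hi).mpr ⟨hi, fun h₃ => hi' (by rw [h₃, bot_inf_eq])⟩
    have hwj : w.testBit j = true := (hpt j hj).mpr ⟨hj, fun h₃ => hj' (by rw [h₃, bot_inf_eq])⟩
    exact hno i hi j hj hwi hwj hxi hxj
      ((hcon i j hi hj).mpr (Ct_symm h (Ct_mono₂ h inf_le_left inf_le_left h₂)))
  · intro hS
    by_contra hno
    push Not at hno
    refine nondeg' h hS (Eq.symm ?_)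
    rw [eq_bot_iff]
    refine ideal_mt h (P := fun z => z ≤ ⊥) (fun x y hx hy => sup_le hx hy) K _ fun i hi => ?_
    by_contra h₀
    refine hno i hi ((hpt i hi).mpr ⟨hi, fun h₁ => h₀ ?_⟩)
    rw [h₁, bot_inf_eq]
  · have key : ∀ ψ : Form, (∀ p, ψ.Occurs p → p < K) →
        (eval v ψ = true ↔ fev (2 ^ K) w b c ψ = true) := by
      intro ψ hψ
      induction ψ with
      | bot => simp [eval, fev]
      | le s t =>
        have h₁ := le_iff_pt h (a := s) (b := t) (fun p hp => hψ p (Or.inl hp))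
          (fun p hp => hψ p (Or.inr hp))
        refine h₁.trans ?_
        simp only [fev, decide_eq_true_eq]
        exact ⟨fun h' i hi hw => h' i ((hpt i hi).mp hw),
          fun h' i hi => h' i hi.1 ((hpt i hi.1).mpr hi)⟩
      | con s t =>
        have h₁ := con_iff_pt h (a := s) (b := t) (fun p hp => hψ p (Or.inl hp))
          (fun p hp => hψ p (Or.inr hp))
        refine h₁.trans ?_
        simp only [fev, decide_eq_true_eq]
        constructor
        · rintro ⟨i, j, hi, hj, hs, ht, hC⟩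
          exact ⟨i, hi.1, j, hj.1, (hpt i hi.1).mpr hi, (hpt j hj.1).mpr hj,
            (hcon i j hi.1 hj.1).mpr hC, hs, ht⟩
        · rintro ⟨i, hi, j, hj, hwi, hwj, hC, hs, ht⟩
          exact ⟨i, j, (hpt i hi).mp hwi, (hpt j hj).mp hwj, hs, ht, (hcon i j hi hj).mp hC⟩
      | bdd s =>
        have h₁ := bdd_iff_pt h (a := s) (fun p hp => hψ p hp)
        refine h₁.trans ?_
        simp only [fev, decide_eq_true_eq]
        constructor
        · intro h' i hi hw hs
          exact (hbb i).mpr ⟨hi, h' i ((hpt i hi).mp hw) hs⟩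
        · intro h' i hi hs
          exact ((hbb i).mp (h' i hi.1 ((hpt i hi.1).mpr hi) hs)).2
      | imp ψ χ h₁ h₂ =>
        have h₁ := h₁ fun p hp => hψ p (Or.inl hp)
        have h₂ := h₂ fun p hp => hψ p (Or.inr hp)
        rw [eval_imp, h₁, h₂]
        simp only [fev]
        generalize fev _ w b c ψ = x
        generalize fev _ w b c χ = y
        cases x <;> cases y <;> simp
    rw [← key φ hK]
    exact hvφ

theorem prov_iff {φ : Form} {K : ℕ} (hK : ∀ p, φ.Occurs p → p < K) :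
    Prov false S φ ↔ ∀ w < 2 ^ 2 ^ K, ∀ b < 2 ^ 2 ^ K, ∀ c < 2 ^ (2 ^ K * 2 ^ K),
      Legit S (2 ^ K) w c → fev (2 ^ K) w b c φ = true := by
  constructor
  · intro h w _ b _ c _ hl
    rw [← coded_sat hl]
    exact sound h _ (coded_good b hl) _
  · intro h
    by_contra hφ
    obtain ⟨w, hw, b, hb, c, hc, hl, hno⟩ := coded_complete hK hφ
    exact hno (h w hw b hb c hc hl)

end

end Pool.Agent.Q220.RCC
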