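import Pool.Agent.Q220.RCC.Coded

/-!
# Decidability of the theorems
-/

namespace Pool.Agent.Q220.RCC

open Form

/-! ### Gödel numbers -/

/-- The term with a given number. -/
def termOf (n : ℕ) : Term :=
  if n = 0 then .zero
  else if h1 : n ≤ 1 then .one
  else if n % 4 = 2 then .var (n / 4)
  else if h3 : n % 4 = 3 then
    .add (termOf (Nat.unpair (n / 4)).1) (termOf (Nat.unpair (n / 4)).2)
  else if h4 : n % 4 = 0 then
    .mul (termOf (Nat.unpair (n / 4 - 1)).1) (termOf (Nat.unpair (n / 4 - 1)).2)
  else .compl (termOf (n / 4 - 1))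
termination_by n
decreasing_by
  · have := Nat.unpair_left_le (n / 4); omega
  · have := Nat.unpair_right_le (n / 4); omega
  · have := Nat.unpair_left_le (n / 4 - 1); omega
  · have := Nat.unpair_right_le (n / 4 - 1); omega
  · omega

lemma termOf_zero : termOf 0 = .zero := by rw [termOf]; simp
lemma termOf_one : termOf 1 = .one := by rw [termOf]; simp

lemma termOf_var (p : ℕ) : termOf (4 * p + 2) = .var p := by
  rw [termOf]
  have h1 : ¬ 4 * p + 2 = 0 := by omega
  have h2 : ¬ 4 * p + 2 ≤ 1 := by omega
  have h3 : (4 * p + 2) % 4 = 2 := by omega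
  have h4 : (4 * p + 2) / 4 = p := by omega
  rw [if_neg h1, dif_neg h2, if_pos h3, h4]

lemma termOf_add (k : ℕ) :
    termOf (4 * k + 3) = .add (termOf (Nat.unpair k).1) (termOf (Nat.unpair k).2) := by
  rw [termOf]
  have h1 : ¬ 4 * k + 3 = 0 := by omega
  have h2 : ¬ 4 * k + 3 ≤ 1 := by omega
  have h3 : ¬ (4 * k + 3) % 4 = 2 := by omega
  have h3' : (4 * k + 3) % 4 = 3 := by omega
  have h4 : (4 * k + 3) / 4 = k := by omega
  rw [if_neg h1, dif_neg h2, if_neg h3, dif_pos h3', h4]

lemma termOf_mul (k : ℕ) :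
    termOf (4 * k + 4) = .mul (termOf (Nat.unpair k).1) (termOf (Nat.unpair k).2) := by
  rw [termOf]
  have h1 : ¬ 4 * k + 4 = 0 := by omega
  have h2 : ¬ 4 * k + 4 ≤ 1 := by omega
  have h3 : ¬ (4 * k + 4) % 4 = 2 := by omega
  have h3' : ¬ (4 * k + 4) % 4 = 3 := by omega
  have h5 : (4 * k + 4) % 4 = 0 := by omega
  have h4 : (4 * k + 4) / 4 - 1 = k := by omega
  rw [if_neg h1, dif_neg h2, if_neg h3, dif_neg h3', dif_pos h5, h4]

lemma termOf_compl (k : ℕ) : termOf (4 * k + 5) = .compl (termOf k) := by
  rw [termOf]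
  have h1 : ¬ 4 * k + 5 = 0 := by omega
  have h2 : ¬ 4 * k + 5 ≤ 1 := by omega
  have h3 : ¬ (4 * k + 5) % 4 = 2 := by omega
  have h3' : ¬ (4 * k + 5) % 4 = 3 := by omega
  have h5 : ¬ (4 * k + 5) % 4 = 0 := by omega
  have h4 : (4 * k + 5) / 4 - 1 = k := by omega
  rw [if_neg h1, dif_neg h2, if_neg h3, dif_neg h3', dif_neg h5, h4]

lemma termOf_code (a : Term) : termOf a.code = a := by
  induction a with
  | zero => exact termOf_zero
  | one => exact termOf_one
  | var p => exact termOf_var p
  | add a b ha hb => rw [Term.code, termOf_add, Nat.unpair_pair, ha, hb]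
  | mul a b ha hb => rw [Term.code, termOf_mul, Nat.unpair_pair, ha, hb]
  | compl a ha => rw [Term.code, termOf_compl, ha]

/-- The formula with a given number. -/
def formOf (n : ℕ) : Form :=
  if n = 0 then .bot
  else if n % 4 = 1 then .le (termOf (Nat.unpair (n / 4)).1) (termOf (Nat.unpair (n / 4)).2)
  else if n % 4 = 2 then .con (termOf (Nat.unpair (n / 4)).1) (termOf (Nat.unpair (n / 4)).2)
  else if n % 4 = 3 then .bdd (termOf (n / 4))
  else .imp (formOf (Nat.unpair (n / 4 - 1)).1) (formOf (Nat.unpair (n / 4 - 1)).2)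
termination_by n
decreasing_by
  · have := Nat.unpair_left_le (n / 4 - 1); omega
  · have := Nat.unpair_right_le (n / 4 - 1); omega

lemma formOf_zero : formOf 0 = .bot := by rw [formOf]; simp

lemma formOf_le (k : ℕ) :
    formOf (4 * k + 1) = .le (termOf (Nat.unpair k).1) (termOf (Nat.unpair k).2) := by
  rw [formOf]
  have h1 : ¬ 4 * k + 1 = 0 := by omega
  have h2 : (4 * k + 1) % 4 = 1 := by omega
  have h4 : (4 * k + 1) / 4 = k := by omega
  rw [if_neg h1, if_pos h2, h4]

lemma formOf_con (k : ℕ) :
    formOf (4 * k + 2) = .con (termOf (Nat.unpair k).1) (termOf (Nat.unpair k).2) := by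
  rw [formOf]
  have h1 : ¬ 4 * k + 2 = 0 := by omega
  have h2 : ¬ (4 * k + 2) % 4 = 1 := by omega
  have h3 : (4 * k + 2) % 4 = 2 := by omega
  have h4 : (4 * k + 2) / 4 = k := by omega
  rw [if_neg h1, if_neg h2, if_pos h3, h4]

lemma formOf_bdd (k : ℕ) : formOf (4 * k + 3) = .bdd (termOf k) := by
  rw [formOf]
  have h1 : ¬ 4 * k + 3 = 0 := by omega
  have h2 : ¬ (4 * k + 3) % 4 = 1 := by omega
  have h3 : ¬ (4 * k + 3) % 4 = 2 := by omega
  have h3' : (4 * k + 3) % 4 = 3 := by omega
  have h4 : (4 * k + 3) / 4 = k := by omega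
  rw [if_neg h1, if_neg h2, if_neg h3, if_pos h3', h4]

lemma formOf_imp (k : ℕ) :
    formOf (4 * k + 4) = .imp (formOf (Nat.unpair k).1) (formOf (Nat.unpair k).2) := by
  rw [formOf]
  have h1 : ¬ 4 * k + 4 = 0 := by omega
  have h2 : ¬ (4 * k + 4) % 4 = 1 := by omega
  have h3 : ¬ (4 * k + 4) % 4 = 2 := by omega
  have h3' : ¬ (4 * k + 4) % 4 = 3 := by omega
  have h4 : (4 * k + 4) / 4 - 1 = k := by omega
  rw [if_neg h1, if_neg h2, if_neg h3, if_neg h3', h4]

lemma formOf_code (φ : Form) : formOf φ.code = φ := by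
  induction φ with
  | bot => exact formOf_zero
  | le a b => rw [Form.code, formOf_le, Nat.unpair_pair, termOf_code, termOf_code]
  | con a b => rw [Form.code, formOf_con, Nat.unpair_pair, termOf_code, termOf_code]
  | bdd a => rw [Form.code, formOf_bdd, termOf_code]
  | imp φ ψ h₁ h₂ => rw [Form.code, formOf_imp, Nat.unpair_pair, h₁, h₂]

lemma code_termOf (n : ℕ) : (termOf n).code = n := by
  induction n using Nat.strong_induction_on with
  | _ n ih =>
    rcases Nat.lt_or_ge n 2 with h | h
    · interval_cases n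
      · rw [termOf_zero]; rfl
      · rw [termOf_one]; rfl
    · obtain ⟨k, hk | hk | hk | hk⟩ :
          ∃ k, n = 4 * k + 2 ∨ n = 4 * k + 3 ∨ n = 4 * k + 4 ∨ n = 4 * k + 5 :=
        ⟨(n - 2) / 4, by omega⟩
      · subst hk; rw [termOf_var]; rfl
      · subst hk
        have h1 := Nat.unpair_left_le k
        have h2 := Nat.unpair_right_le k
        rw [termOf_add, Term.code, ih _ (by omega), ih _ (by omega), Nat.pair_unpair]
      · subst hk
        have h1 := Nat.unpair_left_le k
        have h2 := Nat.unpair_right_le k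
        rw [termOf_mul, Term.code, ih _ (by omega), ih _ (by omega), Nat.pair_unpair]
      · subst hk
        rw [termOf_compl, Term.code, ih _ (by omega)]

lemma code_formOf (n : ℕ) : (formOf n).code = n := by
  induction n using Nat.strong_induction_on with
  | _ n ih =>
    rcases Nat.eq_zero_or_pos n with rfl | h
    · rw [formOf_zero]; rfl
    · obtain ⟨k, hk | hk | hk | hk⟩ :
          ∃ k, n = 4 * k + 1 ∨ n = 4 * k + 2 ∨ n = 4 * k + 3 ∨ n = 4 * k + 4 :=
        ⟨(n - 1) / 4, by omega⟩
      · subst hk; rw [formOf_le, Form.code, code_termOf, code_termOf, Nat.pair_unpair]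
      · subst hk; rw [formOf_con, Form.code, code_termOf, code_termOf, Nat.pair_unpair]
      · subst hk; rw [formOf_bdd, Form.code, code_termOf]
      · subst hk
        have h1 := Nat.unpair_left_le k
        have h2 := Nat.unpair_right_le k
        rw [formOf_imp, Form.code, ih _ (by omega), ih _ (by omega), Nat.pair_unpair]

/-- The numbering of the formulas is a bijection. -/
theorem code_bijective : Function.Bijective Form.code :=
  ⟨fun φ ψ h => by rw [← formOf_code φ, ← formOf_code ψ, h], fun n => ⟨formOf n, code_formOf n⟩⟩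

lemma occurs_lt_term {a : Term} {p : ℕ} (h : a.Occurs p) : p < a.code := by
  induction a with
  | zero => exact h.elim
  | one => exact h.elim
  | var q =>
    have h : p = q := h
    subst h
    rw [Term.code]; omega
  | add a b ha hb =>
    have h1 := Nat.left_le_pair a.code b.code
    have h2 := Nat.right_le_pair a.code b.code
    rw [Term.code]
    rcases h with h | h
    · have := ha h; omega
    · have := hb h; omega
  | mul a b ha hb =>
    have h1 := Nat.left_le_pair a.code b.code
    have h2 := Nat.right_le_pair a.code b.code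
    rw [Term.code]
    rcases h with h | h
    · have := ha h; omega
    · have := hb h; omega
  | compl a ha =>
    rw [Term.code]
    have := ha h; omega

lemma occurs_lt {φ : Form} {p : ℕ} (h : φ.Occurs p) : p < φ.code := by
  induction φ with
  | bot => exact h.elim
  | le a b =>
    have h1 := Nat.left_le_pair a.code b.code
    have h2 := Nat.right_le_pair a.code b.code
    rw [Form.code]
    rcases h with h | h
    · have := occurs_lt_term h; omega
    · have := occurs_lt_term h; omega
  | con a b =>
    have h1 := Nat.left_le_pair a.code b.code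
    have h2 := Nat.right_le_pair a.code b.code
    rw [Form.code]
    rcases h with h | h
    · have := occurs_lt_term h; omega
    · have := occurs_lt_term h; omega
  | bdd a =>
    rw [Form.code]
    have := occurs_lt_term (a := a) h; omega
  | imp φ ψ h₁ h₂ =>
    have h1 := Nat.left_le_pair φ.code ψ.code
    have h2 := Nat.right_le_pair φ.code ψ.code
    rw [Form.code]
    rcases h with h | h
    · have := h₁ h; omega
    · have := h₂ h; omega

/-! ### primitive recursion -/

lemma primrec_pow : Primrec₂ fun a b : ℕ => a ^ b := Primrec₂.unpaired'.1 Nat.Primrec.pow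

lemma primrec_testBit : Primrec₂ fun a b : ℕ => a.testBit b := by
  have h : Primrec₂ fun a b : ℕ => decide (a / 2 ^ b % 2 = 1) := by
    have := Primrec.eq.comp (f := fun p : ℕ × ℕ => p.1 / 2 ^ p.2 % 2) (g := fun _ => 1)
      (Primrec.nat_mod.comp (Primrec.nat_div.comp Primrec.fst
        (primrec_pow.comp (Primrec.const 2) Primrec.snd)) (Primrec.const 2)) (Primrec.const 1)
    exact this.decide
  exact h.of_eq fun a b => Nat.testBit_eq_decide_div_mod_eq.symm

variable {α : Type} [Primcodable α]

lemma all_lt {f : α → ℕ} {R : ℕ → α → Prop} (hf : Primrec f) (hR : PrimrecRel R) :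
    PrimrecPred fun a => ∀ x < f a, R x a := by
  have h : PrimrecRel fun (L : List ℕ) (y : α) => ∀ x ∈ L, R x y := hR.forall_mem_list
  exact (h.comp (Primrec.list_range.comp hf) Primrec.id).of_eq fun a => by simp

lemma ex_lt {f : α → ℕ} {R : ℕ → α → Prop} (hf : Primrec f) (hR : PrimrecRel R) :
    PrimrecPred fun a => ∃ x < f a, R x a := by
  have h : PrimrecRel fun (L : List ℕ) (y : α) => ∃ x ∈ L, R x y := hR.exists_mem_list
  exact (h.comp (Primrec.list_range.comp hf) Primrec.id).of_eq fun a => by simp

lemma bool_pred {f : α → Bool} (hf : Primrec f) : PrimrecPred fun a => f a = true :=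
  Primrec.eq.comp hf (Primrec.const true)

lemma imp_pred {p q : α → Prop} (hp : PrimrecPred p) (hq : PrimrecPred q) :
    PrimrecPred fun a => p a → q a := (hp.not.or hq).of_eq fun a => by tauto

lemma tb_pred {f g : α → ℕ} (hf : Primrec f) (hg : Primrec g) :
    PrimrecPred fun a => (f a).testBit (g a) = true := bool_pred (primrec_testBit.comp hf hg)

/-- truth of the term with number `n` at the type `i` -/
def tevC (i n : ℕ) : Bool := tev i (termOf n)

/-- the recursion step for `tevC` -/
def tevStep (i : ℕ) (L : List Bool) : Bool :=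
  if L.length = 0 then false
  else if L.length ≤ 1 then true
  else if L.length % 4 = 2 then i.testBit (L.length / 4)
  else if L.length % 4 = 3 then
    L.getD (Nat.unpair (L.length / 4)).1 false || L.getD (Nat.unpair (L.length / 4)).2 false
  else if L.length % 4 = 0 then
    L.getD (Nat.unpair (L.length / 4 - 1)).1 false && L.getD (Nat.unpair (L.length / 4 - 1)).2 false
  else !L.getD (L.length / 4 - 1) false

lemma getD_map (f : ℕ → Bool) (n k : ℕ) (h : k < n) :
    ((List.range n).map f).getD k false = f k := by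
  rw [List.getD_eq_getElem _ _ (by simpa using h)]
  simp

lemma tevStep_eq (i n : ℕ) : tevStep i ((List.range n).map (tevC i)) = tevC i n := by
  unfold tevStep
  simp only [List.length_map, List.length_range]
  rcases Nat.lt_or_ge n 2 with h | h
  · interval_cases n
    · simp [tevC, termOf_zero, tev]
    · simp [tevC, termOf_one, tev]
  · obtain ⟨k, hk | hk | hk | hk⟩ :
        ∃ k, n = 4 * k + 2 ∨ n = 4 * k + 3 ∨ n = 4 * k + 4 ∨ n = 4 * k + 5 :=
      ⟨(n - 2) / 4, by omega⟩
    · have e : n / 4 = k := by omega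
      rw [if_neg (by omega), if_neg (by omega), if_pos (by omega), e, hk, tevC, termOf_var, tev]
    · have e : n / 4 = k := by omega
      have h1 := Nat.unpair_left_le k
      have h2 := Nat.unpair_right_le k
      rw [if_neg (by omega), if_neg (by omega), if_neg (by omega), if_pos (by omega), e,
        getD_map _ _ _ (by omega), getD_map _ _ _ (by omega), hk, tevC, tevC, tevC, termOf_add, tev]
    · have e : n / 4 - 1 = k := by omega
      have h1 := Nat.unpair_left_le k
      have h2 := Nat.unpair_right_le k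
      rw [if_neg (by omega), if_neg (by omega), if_neg (by omega), if_neg (by omega),
        if_pos (by omega), e,
        getD_map _ _ _ (by omega), getD_map _ _ _ (by omega), hk, tevC, tevC, tevC, termOf_mul, tev]
    · have e : n / 4 - 1 = k := by omega
      rw [if_neg (by omega), if_neg (by omega), if_neg (by omega), if_neg (by omega),
        if_neg (by omega), e, getD_map _ _ _ (by omega), hk, tevC, tevC, termOf_compl, tev]

lemma primrec_getD {f : α → List Bool} {g : α → ℕ} (hf : Primrec f) (hg : Primrec g) :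
    Primrec fun a => (f a).getD (g a) false :=
  (Primrec.list_getD false).comp hf hg

lemma primrec_tevStep : Primrec₂ tevStep := by
  have hl : Primrec fun p : ℕ × List Bool => p.2.length := Primrec.list_length.comp Primrec.snd
  have h4 : Primrec fun p : ℕ × List Bool => p.2.length / 4 :=
    Primrec.nat_div.comp hl (Primrec.const 4)
  have hm : Primrec fun p : ℕ × List Bool => p.2.length % 4 :=
    Primrec.nat_mod.comp hl (Primrec.const 4)
  have h41 : Primrec fun p : ℕ × List Bool => p.2.length / 4 - 1 :=
    Primrec.nat_sub.comp h4 (Primrec.const 1)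
  have u1 := Primrec.fst.comp (Primrec.unpair.comp h4)
  have u2 := Primrec.snd.comp (Primrec.unpair.comp h4)
  have v1 := Primrec.fst.comp (Primrec.unpair.comp h41)
  have v2 := Primrec.snd.comp (Primrec.unpair.comp h41)
  have hs : Primrec fun p : ℕ × List Bool => p.2 := Primrec.snd
  refine Primrec.ite (Primrec.eq.comp hl (Primrec.const 0)) (Primrec.const false) ?_
  refine Primrec.ite (Primrec.nat_le.comp hl (Primrec.const 1)) (Primrec.const true) ?_
  refine Primrec.ite (Primrec.eq.comp hm (Primrec.const 2))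
    (primrec_testBit.comp Primrec.fst h4) ?_
  refine Primrec.ite (Primrec.eq.comp hm (Primrec.const 3))
    (Primrec.or.comp (primrec_getD hs u1) (primrec_getD hs u2)) ?_
  refine Primrec.ite (Primrec.eq.comp hm (Primrec.const 0))
    (Primrec.and.comp (primrec_getD hs v1) (primrec_getD hs v2)) ?_
  exact Primrec.not.comp (primrec_getD hs h41)

lemma primrec_tevC : Primrec₂ tevC :=
  Primrec.nat_strong_rec tevC (g := fun i L => some (tevStep i L))
    (Primrec.option_some.comp₂ primrec_tevStep) fun i n => by
      rw [tevStep_eq]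

/-! ### formulas -/

/-- the parameters `(N, w, b, c)` -/
abbrev Par : Type := ℕ × ℕ × ℕ × ℕ

/-- truth of the formula with number `n` in the coded frame -/
def fevC (x : Par) (n : ℕ) : Bool := fev x.1 x.2.1 x.2.2.1 x.2.2.2 (formOf n)

/-- `s ≤ t` in the coded frame, for the numbers of the terms -/
def leP (x : Par) (s t : ℕ) : Prop :=
  ∀ i < x.1, x.2.1.testBit i = true → tevC i s = true → tevC i t = true

/-- `s C t` in the coded frame -/
def conP (x : Par) (s t : ℕ) : Prop :=
  ∃ i < x.1, ∃ j < x.1, x.2.1.testBit i = true ∧ x.2.1.testBit j = true ∧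
      x.2.2.2.testBit (i * x.1 + j) = true ∧ tevC i s = true ∧ tevC j t = true

/-- `B(s)` in the coded frame -/
def bddP (x : Par) (s : ℕ) : Prop :=
  ∀ i < x.1, x.2.1.testBit i = true → tevC i s = true → x.2.2.1.testBit i = true

instance (x : Par) (s t : ℕ) : Decidable (leP x s t) := by unfold leP; infer_instance
instance (x : Par) (s t : ℕ) : Decidable (conP x s t) := by unfold conP; infer_instance
instance (x : Par) (s : ℕ) : Decidable (bddP x s) := by unfold bddP; infer_instance

lemma leP_primrec {x : α → Par} {s t : α → ℕ} (hx : Primrec x) (hs : Primrec s) (ht : Primrec t) :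
    PrimrecPred fun a => leP (x a) (s a) (t a) := by
  refine all_lt (Primrec.fst.comp hx) (R := fun i a => (x a).2.1.testBit i = true →
    tevC i (s a) = true → tevC i (t a) = true) ?_
  have hx' : Primrec fun p : ℕ × α => x p.2 := hx.comp Primrec.snd
  have hs' : Primrec fun p : ℕ × α => s p.2 := hs.comp Primrec.snd
  have ht' : Primrec fun p : ℕ × α => t p.2 := ht.comp Primrec.snd
  have hi : Primrec fun p : ℕ × α => p.1 := Primrec.fst
  exact imp_pred (tb_pred (Primrec.fst.comp (Primrec.snd.comp hx')) hi)
    (imp_pred (bool_pred (primrec_tevC.comp hi hs')) (bool_pred (primrec_tevC.comp hi ht')))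

lemma bddP_primrec {x : α → Par} {s : α → ℕ} (hx : Primrec x) (hs : Primrec s) :
    PrimrecPred fun a => bddP (x a) (s a) := by
  refine all_lt (Primrec.fst.comp hx) (R := fun i a => (x a).2.1.testBit i = true →
    tevC i (s a) = true → (x a).2.2.1.testBit i = true) ?_
  have hx' : Primrec fun p : ℕ × α => x p.2 := hx.comp Primrec.snd
  have hs' : Primrec fun p : ℕ × α => s p.2 := hs.comp Primrec.snd
  have hi : Primrec fun p : ℕ × α => p.1 := Primrec.fst
  exact imp_pred (tb_pred (Primrec.fst.comp (Primrec.snd.comp hx')) hi)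
    (imp_pred (bool_pred (primrec_tevC.comp hi hs'))
      (tb_pred (Primrec.fst.comp (Primrec.snd.comp (Primrec.snd.comp hx'))) hi))

lemma conP_primrec {x : α → Par} {s t : α → ℕ} (hx : Primrec x) (hs : Primrec s) (ht : Primrec t) :
    PrimrecPred fun a => conP (x a) (s a) (t a) := by
  refine ex_lt (Primrec.fst.comp hx) (R := fun i a => ∃ j < (x a).1,
    (x a).2.1.testBit i = true ∧ (x a).2.1.testBit j = true ∧
      (x a).2.2.2.testBit (i * (x a).1 + j) = true ∧ tevC i (s a) = true ∧ tevC j (t a) = true) ?_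
  refine ex_lt (α := ℕ × α) (f := fun p => (x p.2).1)
    (R := fun j p => (x p.2).2.1.testBit p.1 = true ∧ (x p.2).2.1.testBit j = true ∧
      (x p.2).2.2.2.testBit (p.1 * (x p.2).1 + j) = true ∧ tevC p.1 (s p.2) = true ∧
      tevC j (t p.2) = true) (Primrec.fst.comp (hx.comp Primrec.snd)) ?_
  have hj : Primrec fun p : ℕ × (ℕ × α) => p.1 := Primrec.fst
  have hi : Primrec fun p : ℕ × (ℕ × α) => p.2.1 := Primrec.fst.comp Primrec.snd
  have hx' : Primrec fun p : ℕ × (ℕ × α) => x p.2.2 := hx.comp (Primrec.snd.comp Primrec.snd)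
  have hs' : Primrec fun p : ℕ × (ℕ × α) => s p.2.2 := hs.comp (Primrec.snd.comp Primrec.snd)
  have ht' : Primrec fun p : ℕ × (ℕ × α) => t p.2.2 := ht.comp (Primrec.snd.comp Primrec.snd)
  exact (tb_pred (Primrec.fst.comp (Primrec.snd.comp hx')) hi).and
    ((tb_pred (Primrec.fst.comp (Primrec.snd.comp hx')) hj).and
    ((tb_pred (Primrec.snd.comp (Primrec.snd.comp (Primrec.snd.comp hx')))
      (Primrec.nat_add.comp (Primrec.nat_mul.comp hi (Primrec.fst.comp hx')) hj)).and
    ((bool_pred (primrec_tevC.comp hi hs')).and (bool_pred (primrec_tevC.comp hj ht')))))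

/-- the recursion step for `fevC` -/
def fevStep (x : Par) (L : List Bool) : Bool :=
  if L.length = 0 then false
  else if L.length % 4 = 1 then
    decide (leP x (Nat.unpair (L.length / 4)).1 (Nat.unpair (L.length / 4)).2)
  else if L.length % 4 = 2 then
    decide (conP x (Nat.unpair (L.length / 4)).1 (Nat.unpair (L.length / 4)).2)
  else if L.length % 4 = 3 then decide (bddP x (L.length / 4))
  else !L.getD (Nat.unpair (L.length / 4 - 1)).1 false ||
    L.getD (Nat.unpair (L.length / 4 - 1)).2 false

lemma fevStep_eq (x : Par) (n : ℕ) : fevStep x ((List.range n).map (fevC x)) = fevC x n := by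
  unfold fevStep
  simp only [List.length_map, List.length_range]
  rcases Nat.eq_zero_or_pos n with rfl | h
  · simp [fevC, formOf_zero, fev]
  · obtain ⟨k, hk | hk | hk | hk⟩ :
        ∃ k, n = 4 * k + 1 ∨ n = 4 * k + 2 ∨ n = 4 * k + 3 ∨ n = 4 * k + 4 :=
      ⟨(n - 1) / 4, by omega⟩
    · have e : n / 4 = k := by omega
      rw [if_neg (by omega), if_pos (by omega), e, hk, fevC, formOf_le, fev]
      rfl
    · have e : n / 4 = k := by omega
      rw [if_neg (by omega), if_neg (by omega), if_pos (by omega), e, hk, fevC, formOf_con, fev]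
      rfl
    · have e : n / 4 = k := by omega
      rw [if_neg (by omega), if_neg (by omega), if_neg (by omega), if_pos (by omega), e, hk, fevC,
        formOf_bdd, fev]
      rfl
    · have e : n / 4 - 1 = k := by omega
      have h1 := Nat.unpair_left_le k
      have h2 := Nat.unpair_right_le k
      rw [if_neg (by omega), if_neg (by omega), if_neg (by omega), if_neg (by omega), e,
        getD_map _ _ _ (by omega), getD_map _ _ _ (by omega), hk, fevC, fevC, fevC, formOf_imp, fev]

lemma primrec_fevStep : Primrec₂ fevStep := by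
  have hx : Primrec fun p : Par × List Bool => p.1 := Primrec.fst
  have hl : Primrec fun p : Par × List Bool => p.2.length := Primrec.list_length.comp Primrec.snd
  have h4 : Primrec fun p : Par × List Bool => p.2.length / 4 :=
    Primrec.nat_div.comp hl (Primrec.const 4)
  have hm : Primrec fun p : Par × List Bool => p.2.length % 4 :=
    Primrec.nat_mod.comp hl (Primrec.const 4)
  have h41 : Primrec fun p : Par × List Bool => p.2.length / 4 - 1 :=
    Primrec.nat_sub.comp h4 (Primrec.const 1)
  have u1 := Primrec.fst.comp (Primrec.unpair.comp h4)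
  have u2 := Primrec.snd.comp (Primrec.unpair.comp h4)
  have v1 := Primrec.fst.comp (Primrec.unpair.comp h41)
  have v2 := Primrec.snd.comp (Primrec.unpair.comp h41)
  have hs : Primrec fun p : Par × List Bool => p.2 := Primrec.snd
  refine Primrec.ite (Primrec.eq.comp hl (Primrec.const 0)) (Primrec.const false) ?_
  refine Primrec.ite (Primrec.eq.comp hm (Primrec.const 1)) (leP_primrec hx u1 u2).decide ?_
  refine Primrec.ite (Primrec.eq.comp hm (Primrec.const 2)) (conP_primrec hx u1 u2).decide ?_
  refine Primrec.ite (Primrec.eq.comp hm (Primrec.const 3)) (bddP_primrec hx h4).decide ?_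
  exact Primrec.or.comp (Primrec.not.comp (primrec_getD hs v1)) (primrec_getD hs v2)

lemma primrec_fevC : Primrec₂ fevC :=
  Primrec.nat_strong_rec fevC (g := fun x L => some (fevStep x L))
    (Primrec.option_some.comp₂ primrec_fevStep) fun x n => by
      rw [fevStep_eq]

/-! ### legitimate codes -/

lemma const_imp {P : Prop} {q : α → Prop} (hq : PrimrecPred q) : PrimrecPred fun a => P → q a := by
  by_cases hP : P
  · exact hq.of_eq fun a => by simp [hP]
  · have : PrimrecPred fun _ : α => (0 : ℕ) = 0 :=
      Primrec.eq.comp (Primrec.const 0) (Primrec.const 0)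
    exact this.of_eq fun a => by simp [hP]

lemma false_pred {f g : α → ℕ} (hf : Primrec f) (hg : Primrec g) :
    PrimrecPred fun a => (f a).testBit (g a) = false :=
  Primrec.eq.comp (primrec_testBit.comp hf hg) (Primrec.const false)

lemma legit_primrec (S : Set Opt) {N w c : α → ℕ} (hN : Primrec N) (hw : Primrec w)
    (hc : Primrec c) : PrimrecPred fun a => Legit S (N a) (w a) (c a) := by
  refine PrimrecPred.and ?_ (PrimrecPred.and ?_ (PrimrecPred.and (const_imp ?_) (const_imp ?_)))
  · refine all_lt hN (R := fun i a => (w a).testBit i = true →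
      (c a).testBit (i * N a + i) = true) ?_
    have hi : Primrec fun p : ℕ × α => p.1 := Primrec.fst
    have hN' : Primrec fun p : ℕ × α => N p.2 := hN.comp Primrec.snd
    have hw' : Primrec fun p : ℕ × α => w p.2 := hw.comp Primrec.snd
    have hc' : Primrec fun p : ℕ × α => c p.2 := hc.comp Primrec.snd
    exact imp_pred (tb_pred hw' hi)
      (tb_pred hc' (Primrec.nat_add.comp (Primrec.nat_mul.comp hi hN') hi))
  · refine all_lt hN (R := fun i a => ∀ j < N a, (w a).testBit i = true → (w a).testBit j = true →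
      (c a).testBit (i * N a + j) = true → (c a).testBit (j * N a + i) = true) ?_
    refine all_lt (α := ℕ × α) (f := fun p => N p.2) (R := fun j p =>
      (w p.2).testBit p.1 = true → (w p.2).testBit j = true →
      (c p.2).testBit (p.1 * N p.2 + j) = true → (c p.2).testBit (j * N p.2 + p.1) = true)
      (hN.comp Primrec.snd) ?_
    have hj : Primrec fun p : ℕ × (ℕ × α) => p.1 := Primrec.fst
    have hi : Primrec fun p : ℕ × (ℕ × α) => p.2.1 := Primrec.fst.comp Primrec.snd
    have hN' : Primrec fun p : ℕ × (ℕ × α) => N p.2.2 := hN.comp (Primrec.snd.comp Primrec.snd)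
    have hw' : Primrec fun p : ℕ × (ℕ × α) => w p.2.2 := hw.comp (Primrec.snd.comp Primrec.snd)
    have hc' : Primrec fun p : ℕ × (ℕ × α) => c p.2.2 := hc.comp (Primrec.snd.comp Primrec.snd)
    exact imp_pred (tb_pred hw' hi) (imp_pred (tb_pred hw' hj) (imp_pred
      (tb_pred hc' (Primrec.nat_add.comp (Primrec.nat_mul.comp hi hN') hj))
      (tb_pred hc' (Primrec.nat_add.comp (Primrec.nat_mul.comp hj hN') hi))))
  · refine all_lt (f := fun a => 2 ^ N a) (primrec_pow.comp (Primrec.const 2) hN)
      (R := fun x a => (∃ i < N a, (w a).testBit i = true ∧ x.testBit i = true) →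
        (∃ i < N a, (w a).testBit i = true ∧ x.testBit i = false) →
        ∃ i < N a, ∃ j < N a, (w a).testBit i = true ∧ (w a).testBit j = true ∧
          x.testBit i = true ∧ x.testBit j = false ∧ (c a).testBit (i * N a + j) = true) ?_
    have hN1 : Primrec fun p : ℕ × α => N p.2 := hN.comp Primrec.snd
    refine imp_pred ?_ (imp_pred ?_ ?_)
    · refine ex_lt (α := ℕ × α) (f := fun p => N p.2)
        (R := fun i p => (w p.2).testBit i = true ∧ p.1.testBit i = true) hN1 ?_
      have hi : Primrec fun p : ℕ × (ℕ × α) => p.1 := Primrec.fst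
      have hx : Primrec fun p : ℕ × (ℕ × α) => p.2.1 := Primrec.fst.comp Primrec.snd
      have hw' : Primrec fun p : ℕ × (ℕ × α) => w p.2.2 := hw.comp (Primrec.snd.comp Primrec.snd)
      exact (tb_pred hw' hi).and (tb_pred hx hi)
    · refine ex_lt (α := ℕ × α) (f := fun p => N p.2)
        (R := fun i p => (w p.2).testBit i = true ∧ p.1.testBit i = false) hN1 ?_
      have hi : Primrec fun p : ℕ × (ℕ × α) => p.1 := Primrec.fst
      have hx : Primrec fun p : ℕ × (ℕ × α) => p.2.1 := Primrec.fst.comp Primrec.snd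
      have hw' : Primrec fun p : ℕ × (ℕ × α) => w p.2.2 := hw.comp (Primrec.snd.comp Primrec.snd)
      exact (tb_pred hw' hi).and (false_pred hx hi)
    · refine ex_lt (α := ℕ × α) (f := fun p => N p.2)
        (R := fun i p => ∃ j < N p.2, (w p.2).testBit i = true ∧ (w p.2).testBit j = true ∧
          p.1.testBit i = true ∧ p.1.testBit j = false ∧
          (c p.2).testBit (i * N p.2 + j) = true) hN1 ?_
      refine ex_lt (α := ℕ × (ℕ × α)) (f := fun p => N p.2.2)
        (R := fun j p => (w p.2.2).testBit p.1 = true ∧ (w p.2.2).testBit j = true ∧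
          p.2.1.testBit p.1 = true ∧ p.2.1.testBit j = false ∧
          (c p.2.2).testBit (p.1 * N p.2.2 + j) = true)
        (hN.comp (Primrec.snd.comp Primrec.snd)) ?_
      have hj : Primrec fun p : ℕ × (ℕ × (ℕ × α)) => p.1 := Primrec.fst
      have hi : Primrec fun p : ℕ × (ℕ × (ℕ × α)) => p.2.1 := Primrec.fst.comp Primrec.snd
      have hx : Primrec fun p : ℕ × (ℕ × (ℕ × α)) => p.2.2.1 :=
        Primrec.fst.comp (Primrec.snd.comp Primrec.snd)
      have ha : Primrec fun p : ℕ × (ℕ × (ℕ × α)) => p.2.2.2 :=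
        Primrec.snd.comp (Primrec.snd.comp Primrec.snd)
      exact (tb_pred (hw.comp ha) hi).and ((tb_pred (hw.comp ha) hj).and ((tb_pred hx hi).and
        ((false_pred hx hj).and (tb_pred (hc.comp ha)
          (Primrec.nat_add.comp (Primrec.nat_mul.comp hi (hN.comp ha)) hj)))))
  · refine ex_lt hN (R := fun i a => (w a).testBit i = true) ?_
    have hi : Primrec fun p : ℕ × α => p.1 := Primrec.fst
    exact tb_pred (hw.comp Primrec.snd) hi

/-- The theorems (`BOUND-2` as intended) form a primitive recursive set. -/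
theorem prov_primrec (S : Set Opt) : PrimrecPred fun n : ℕ => Prov false S (formOf n) := by
  have h : ∀ n : ℕ, (∀ w < 2 ^ 2 ^ n, ∀ b < 2 ^ 2 ^ n, ∀ c < 2 ^ (2 ^ n * 2 ^ n),
      Legit S (2 ^ n) w c → fevC (2 ^ n, w, b, c) n = true) ↔ Prov false S (formOf n) := by
    intro n
    rw [prov_iff (K := n)]
    · rfl
    · intro p hp
      have := occurs_lt hp
      rwa [code_formOf] at this
  refine PrimrecPred.of_eq ?_ h
  have p2 : Primrec fun n : ℕ => 2 ^ n := primrec_pow.comp (Primrec.const 2) Primrec.id
  have p22 : Primrec fun n : ℕ => 2 ^ 2 ^ n := primrec_pow.comp (Primrec.const 2) p2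
  have p2m : Primrec fun n : ℕ => 2 ^ (2 ^ n * 2 ^ n) :=
    primrec_pow.comp (Primrec.const 2) (Primrec.nat_mul.comp p2 p2)
  refine all_lt p22 (R := fun w n => ∀ b < 2 ^ 2 ^ n, ∀ c < 2 ^ (2 ^ n * 2 ^ n),
      Legit S (2 ^ n) w c → fevC (2 ^ n, w, b, c) n = true) ?_
  refine all_lt (α := ℕ × ℕ) (f := fun p => 2 ^ 2 ^ p.2) (p22.comp Primrec.snd)
    (R := fun b p => ∀ c < 2 ^ (2 ^ p.2 * 2 ^ p.2), Legit S (2 ^ p.2) p.1 c →
      fevC (2 ^ p.2, p.1, b, c) p.2 = true) ?_
  refine all_lt (α := ℕ × (ℕ × ℕ)) (f := fun p => 2 ^ (2 ^ p.2.2 * 2 ^ p.2.2))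
    (p2m.comp (Primrec.snd.comp Primrec.snd))
    (R := fun c p => Legit S (2 ^ p.2.2) p.2.1 c →
      fevC (2 ^ p.2.2, p.2.1, p.1, c) p.2.2 = true) ?_
  have hc : Primrec fun p : ℕ × (ℕ × (ℕ × ℕ)) => p.1 := Primrec.fst
  have hb : Primrec fun p : ℕ × (ℕ × (ℕ × ℕ)) => p.2.1 := Primrec.fst.comp Primrec.snd
  have hw : Primrec fun p : ℕ × (ℕ × (ℕ × ℕ)) => p.2.2.1 :=
    Primrec.fst.comp (Primrec.snd.comp Primrec.snd)
  have hn : Primrec fun p : ℕ × (ℕ × (ℕ × ℕ)) => p.2.2.2 :=
    Primrec.snd.comp (Primrec.snd.comp Primrec.snd)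
  have hN := p2.comp hn
  exact imp_pred (legit_primrec S hN hw hc)
    (bool_pred (primrec_fevC.comp (hN.pair (hw.pair (hb.pair hc))) hn))

/-- With `BOUND-2` as printed, everything is a theorem. -/
theorem lit_all (S : Set Opt) (φ : Form) : Prov true S φ := by
  -- `0 ≪ p` is a theorem
  have h₁ : Prov true S (ll .zero (.var 0)) := by
    have a₁ : Prov true S (imp (con .zero (.compl (.var 0)))
        (and (ne .zero .zero) (ne (.compl (.var 0)) .zero))) := Prov.ax (Ax.con_ne _ _)
    have a₂ : Prov true S (le .zero .zero) := Prov.ax (Ax.le_refl _)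
    refine Prov.mp (Prov.mp (Prov.taut ?_) a₁) a₂
    intro v
    rw [eval_imp, eval_imp, eval_imp, eval_and, eval_ne]
    unfold ll
    rw [eval_neg]
    tauto
  have h₂ : Prov true S (imp (imp bot bot) (ll .zero (.var 0))) := by
    refine Prov.mp (Prov.taut ?_) h₁
    intro v
    rw [eval_imp, eval_imp]
    tauto
  have h₃ : Prov true S (imp (imp bot bot) (neg (bdd .zero))) :=
    Prov.bound2lit rfl (by simp [Form.Occurs]) (by simp [Term.Occurs]) h₂
  have h₄ : Prov true S (bdd .zero) := Prov.ax Ax.bdd_zero
  refine Prov.mp (Prov.mp (Prov.taut ?_) h₃) h₄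
  intro v
  rw [eval_imp, eval_imp, eval_imp, eval_neg, eval_imp]
  have := eval_bot (v := v)
  tauto

end Pool.Agent.Q220.RCC
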