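import Pool.Agent.Q220.RCC.Defs

/-!
# Propositional completeness relative to the axioms
-/

namespace Pool.Agent.Q220.RCC

open Form

lemma continuous_eval (φ : Form) : Continuous fun v : Form → Bool => eval v φ := by
  induction φ with
  | bot => exact continuous_const
  | le a b => exact continuous_apply (Form.le a b)
  | con a b => exact continuous_apply (Form.con a b)
  | bdd a => exact continuous_apply (Form.bdd a)
  | imp φ ψ h₁ h₂ =>
    have h : Continuous fun p : Bool × Bool => !p.1 || p.2 := continuous_of_discreteTopology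
    exact h.comp (h₁.prodMk h₂)

lemma eval_imp {v : Form → Bool} {φ ψ : Form} :
    eval v (imp φ ψ) = true ↔ (eval v φ = true → eval v ψ = true) := by
  simp only [eval]
  generalize eval v φ = x
  generalize eval v ψ = y
  cases x <;> cases y <;> simp

lemma eval_bot {v : Form → Bool} : ¬ eval v bot = true := by simp [eval]

lemma eval_neg {v : Form → Bool} {φ : Form} : eval v (neg φ) = true ↔ ¬ eval v φ = true := by
  unfold neg
  rw [eval_imp]
  simp [eval]

lemma eval_or {v : Form → Bool} {φ ψ : Form} :
    eval v (or φ ψ) = true ↔ (eval v φ = true ∨ eval v ψ = true) := by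
  unfold Form.or
  rw [eval_imp, eval_neg]
  tauto

lemma eval_and {v : Form → Bool} {φ ψ : Form} :
    eval v (and φ ψ) = true ↔ (eval v φ = true ∧ eval v ψ = true) := by
  unfold Form.and
  rw [eval_neg, eval_imp, eval_neg]
  tauto

lemma eval_iff {v : Form → Bool} {φ ψ : Form} :
    eval v (iff φ ψ) = true ↔ (eval v φ = true ↔ eval v ψ = true) := by
  unfold Form.iff
  rw [eval_and, eval_imp, eval_imp]
  tauto

lemma eval_eq {v : Form → Bool} {a b : Term} :
    eval v (eq a b) = true ↔ (eval v (le a b) = true ∧ eval v (le b a) = true) := by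
  unfold Form.eq
  rw [eval_and]

lemma eval_ne {v : Form → Bool} {a b : Term} :
    eval v (ne a b) = true ↔ ¬ (eval v (le a b) = true ∧ eval v (le b a) = true) := by
  unfold Form.ne
  rw [eval_neg, eval_eq]

lemma eval_foldr {v : Form → Bool} (L : List Form) (φ : Form) :
    eval v (L.foldr imp φ) = true ↔ ((∀ ψ ∈ L, eval v ψ = true) → eval v φ = true) := by
  induction L with
  | nil => simp
  | cons ψ L ih =>
    rw [List.foldr_cons, eval_imp, ih]
    constructor
    · intro h h'
      exact h (h' _ List.mem_cons_self) fun χ hχ => h' χ (List.mem_cons_of_mem _ hχ)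
    · intro h h₁ h₂
      refine h fun χ hχ => ?_
      rcases List.mem_cons.mp hχ with rfl | hχ
      · exact h₁
      · exact h₂ χ hχ

lemma prov_foldr {lit : Bool} {S : Set Opt} (L : List Form) (φ : Form) (hL : ∀ ψ ∈ L, Ax S ψ)
    (h : Prov lit S (L.foldr imp φ)) : Prov lit S φ := by
  induction L with
  | nil => exact h
  | cons ψ L ih =>
    exact ih (fun χ hχ => hL χ (List.mem_cons_of_mem _ hχ))
      (Prov.mp h (Prov.ax (hL ψ List.mem_cons_self)))

/-- If `φ` is not provable, then some assignment makes the axioms true and `φ` false. -/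
theorem exists_val {lit : Bool} {S : Set Opt} {φ : Form} (hφ : ¬ Prov lit S φ) :
    ∃ v : Form → Bool, (∀ ψ, Ax S ψ → eval v ψ = true) ∧ ¬ eval v φ = true := by
  classical
  let t : {ψ : Form // Ax S ψ ∨ ψ = neg φ} → Set (Form → Bool) := fun ψ => {v | eval v ψ.1 = true}
  have hc : ∀ i, IsClosed (t i) := fun i =>
    isClosed_singleton.preimage (f := fun v : Form → Bool => eval v i.1) (continuous_eval i.1)
  have hf : ∀ s : Finset {ψ : Form // Ax S ψ ∨ ψ = neg φ}, (⋂ i ∈ s, t i).Nonempty := by
    intro s
    let L : List Form := (s.toList.map Subtype.val).filter (fun ψ => Ax S ψ)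
    have hL : ∀ ψ ∈ L, Ax S ψ := fun ψ hψ => by simpa using (List.mem_filter.mp hψ).2
    have : ¬ Taut (L.foldr imp φ) := fun h => hφ (prov_foldr L φ hL (Prov.taut h))
    unfold Taut at this
    push Not at this
    obtain ⟨v, hv⟩ := this
    rw [Ne, eval_foldr] at hv
    push Not at hv
    refine ⟨v, ?_⟩
    rw [Set.mem_iInter₂]
    intro i hi
    change eval v i.1 = true
    rcases i.2 with h | h
    · refine hv.1 _ ?_
      rw [List.mem_filter]
      exact ⟨List.mem_map.mpr ⟨i, by simpa using hi, rfl⟩, by simpa using h⟩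
    · rw [h, eval_neg]
      exact hv.2
  obtain ⟨v, hv⟩ := CompactSpace.iInter_nonempty hc hf
  rw [Set.mem_iInter] at hv
  refine ⟨v, fun ψ hψ => hv ⟨ψ, Or.inl hψ⟩, ?_⟩
  exact eval_neg.mp (hv ⟨neg φ, Or.inr rfl⟩)

end Pool.Agent.Q220.RCC
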