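import Mathlib

/-!
# Region logics with contact and boundedness: definitions

The quantifier-free system `PWRCC-Bound` and its extensions by (Con), (Ext), (Nor).
-/

namespace Pool.Agent.Q220.RCC

/-- Boolean terms: `0`, `1`, variables, `a + b`, `a · b`, `a*`. -/
inductive Term : Type
  | zero : Term
  | one : Term
  | var : ℕ → Term
  | add : Term → Term → Term
  | mul : Term → Term → Term
  | compl : Term → Term

/-- `p` occurs in the term. -/
def Term.Occurs (p : ℕ) : Term → Prop
  | .zero => False
  | .one => False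
  | .var q => p = q
  | .add a b => a.Occurs p ∨ b.Occurs p
  | .mul a b => a.Occurs p ∨ b.Occurs p
  | .compl a => a.Occurs p

/-- Formulas: `⊥`, atomic formulas `a ≤ b`, `a C b`, `B(a)`, and implications; the other
connectives are abbreviations. -/
inductive Form : Type
  | bot : Form
  | le : Term → Term → Form
  | con : Term → Term → Form
  | bdd : Term → Form
  | imp : Form → Form → Form

namespace Form

/-- `p` occurs in the formula. -/
def Occurs (p : ℕ) : Form → Prop
  | bot => False
  | le a b => a.Occurs p ∨ b.Occurs p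
  | con a b => a.Occurs p ∨ b.Occurs p
  | bdd a => a.Occurs p
  | imp φ ψ => φ.Occurs p ∨ ψ.Occurs p

/-- `¬ φ` -/
def neg (φ : Form) : Form := imp φ bot

/-- `φ ∨ ψ` -/
def or (φ ψ : Form) : Form := imp (neg φ) ψ

/-- `φ ∧ ψ` -/
def and (φ ψ : Form) : Form := neg (imp φ (neg ψ))

/-- `φ ⇔ ψ` -/
def iff (φ ψ : Form) : Form := and (imp φ ψ) (imp ψ φ)

/-- `a = b`, that is `a ≤ b ∧ b ≤ a` -/
def eq (a b : Term) : Form := and (le a b) (le b a)

/-- `a ≠ b` -/
def ne (a b : Term) : Form := neg (eq a b)

/-- `a ≪ b`, that is `¬ a C b*` -/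
def ll (a b : Term) : Form := neg (con a (.compl b))

/-- Truth value of a formula under an assignment `v` of truth values to the atomic formulas. -/
def eval (v : Form → Bool) : Form → Bool
  | bot => false
  | le a b => v (le a b)
  | con a b => v (con a b)
  | bdd a => v (bdd a)
  | imp φ ψ => !(eval v φ) || eval v ψ

/-- Instances of propositional tautologies. -/
def Taut (φ : Form) : Prop := ∀ v : Form → Bool, eval v φ = true

end Form

open Form

/-- The optional principles: `Con`, `Ext`, `Nor`, and the axiom `0 ≠ 1`. -/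
inductive Opt : Type
  | Con : Opt
  | Ext : Opt
  | Nor : Opt
  | NonDeg : Opt

/-- The axioms (schemes in the terms `a, b, c`) of `PWRCC-Bound` with the options in `S`. -/
inductive Ax (S : Set Opt) : Form → Prop
  -- the terms form a Boolean algebra
  | le_refl (a : Term) : Ax S (le a a)
  | le_trans (a b c : Term) : Ax S (imp (and (le a b) (le b c)) (le a c))
  | zero_le (a : Term) : Ax S (le .zero a)
  | le_one (a : Term) : Ax S (le a .one)
  | mul_left (a b : Term) : Ax S (le (.mul a b) a)
  | mul_right (a b : Term) : Ax S (le (.mul a b) b)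
  | le_mul (a b c : Term) : Ax S (imp (and (le c a) (le c b)) (le c (.mul a b)))
  | add_left (a b : Term) : Ax S (le a (.add a b))
  | add_right (a b : Term) : Ax S (le b (.add a b))
  | add_le (a b c : Term) : Ax S (imp (and (le a c) (le b c)) (le (.add a b) c))
  | distrib (a b c : Term) : Ax S (le (.mul a (.add b c)) (.add (.mul a b) (.mul a c)))
  | mul_compl (a : Term) : Ax S (le (.mul a (.compl a)) .zero)
  | add_compl (a : Term) : Ax S (le .one (.add a (.compl a)))
  | nondeg (h : Opt.NonDeg ∈ S) : Ax S (ne .zero .one)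
  -- replacement of equal terms
  | congr (a b c : Term) : Ax S (imp (and (eq a b) (con c a)) (con c b))
  -- contact
  | con_ne (a b : Term) : Ax S (imp (con a b) (and (ne a .zero) (ne b .zero)))
  | con_symm (a b : Term) : Ax S (imp (con a b) (con b a))
  | con_add (a b c : Term) : Ax S (iff (con a (.add b c)) (or (con a b) (con a c)))
  | con_mul (a b : Term) : Ax S (imp (ne (.mul a b) .zero) (con a b))
  -- boundedness
  | bdd_zero : Ax S (bdd .zero)
  | bdd_le (a b : Term) : Ax S (imp (and (bdd b) (le a b)) (bdd a))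
  | bdd_add (a b : Term) : Ax S (imp (and (bdd a) (bdd b)) (bdd (.add a b)))
  -- connectedness
  | conn (h : Opt.Con ∈ S) (a : Term) :
      Ax S (imp (and (ne a .zero) (ne a .one)) (con a (.compl a)))

/-- The theorems of `PWRCC-Bound` with the options in `S`. For `lit = false` the rule `BOUND-2` is
read as: from `α ⇒ ¬ (B(p) ∧ a ≪ p)` infer `α ⇒ ¬ B(a)`; for `lit = true` it is taken as printed:
from `α ⇒ a ≪ p` infer `α ⇒ ¬ B(a)` (`p` does not occur in `a`, `α`). -/
inductive Prov (lit : Bool) (S : Set Opt) : Form → Prop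
  | taut {φ : Form} (h : Taut φ) : Prov lit S φ
  | ax {φ : Form} (h : Ax S φ) : Prov lit S φ
  | mp {φ ψ : Form} (h₁ : Prov lit S (imp φ ψ)) (h₂ : Prov lit S φ) : Prov lit S ψ
  | bound1 {α : Form} {a b : Term} {p : ℕ} (hα : ¬ α.Occurs p) (ha : ¬ a.Occurs p)
      (hb : ¬ b.Occurs p)
      (h : Prov lit S (imp α (imp (and (bdd (.var p)) (le (.var p) b)) (neg (con a (.var p)))))) :
      Prov lit S (imp α (neg (con a b)))
  | bound2 (hl : lit = false) {α : Form} {a : Term} {p : ℕ} (hα : ¬ α.Occurs p)
      (ha : ¬ a.Occurs p)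
      (h : Prov lit S (imp α (neg (and (bdd (.var p)) (ll a (.var p)))))) :
      Prov lit S (imp α (neg (bdd a)))
  | bound2lit (hl : lit = true) {α : Form} {a : Term} {p : ℕ} (hα : ¬ α.Occurs p)
      (ha : ¬ a.Occurs p)
      (h : Prov lit S (imp α (ll a (.var p)))) :
      Prov lit S (imp α (neg (bdd a)))
  | ext (hS : Opt.Ext ∈ S) {α : Form} {a : Term} {p : ℕ} (hα : ¬ α.Occurs p)
      (ha : ¬ a.Occurs p)
      (h : Prov lit S (imp α (or (eq (.var p) .zero) (con a (.var p))))) :
      Prov lit S (imp α (eq a .one))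
  | nor (hS : Opt.Nor ∈ S) {α : Form} {a b : Term} {p : ℕ} (hα : ¬ α.Occurs p)
      (ha : ¬ a.Occurs p) (hb : ¬ b.Occurs p)
      (h : Prov lit S (imp α (or (con a (.var p)) (con (.compl (.var p)) b)))) :
      Prov lit S (imp α (con a b))

/-! ### Gödel numbers -/

/-- The Gödel number of a term. -/
def Term.code : Term → ℕ
  | .zero => 0
  | .one => 1
  | .var p => 4 * p + 2
  | .add a b => 4 * Nat.pair a.code b.code + 3
  | .mul a b => 4 * Nat.pair a.code b.code + 4
  | .compl a => 4 * a.code + 5

/-- The Gödel number of a formula. -/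
def Form.code : Form → ℕ
  | .bot => 0
  | .le a b => 4 * Nat.pair a.code b.code + 1
  | .con a b => 4 * Nat.pair a.code b.code + 2
  | .bdd a => 4 * a.code + 3
  | .imp φ ψ => 4 * Nat.pair φ.code ψ.code + 4

end Pool.Agent.Q220.RCC
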